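import Pool.Agent.Work.MP_403fb3_h27.Interface

/-!
# Block AB (typed by helper81)
-/

open Subgroup

namespace Pool.Agent.Work.MP_403fb3_h27

namespace AB

variable {G E : Type} [Group G] [AddCommGroup E]

/-- the restricted action -/
def res (φ : G →* AddMonoid.End E) (V : AddSubgroup E) (hV : Inv φ V) (g : G) : V →+ V where
  toFun x := ⟨φ g (x : E), hV g x x.2⟩
  map_zero' := by
    apply Subtype.ext
    exact map_zero (φ g)
  map_add' x y := by
    apply Subtype.ext
    exact map_add (φ g) (x : E) (y : E)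

theorem res_one (φ : G →* AddMonoid.End E) (V : AddSubgroup E) (hV : Inv φ V) (x : V) :
    res φ V hV 1 x = x := by
  apply Subtype.ext
  change φ 1 (x : E) = (x : E)
  rw [map_one]
  rfl

theorem res_mul (φ : G →* AddMonoid.End E) (V : AddSubgroup E) (hV : Inv φ V) (g h : G) (x : V) :
    res φ V hV (g * h) x = res φ V hV g (res φ V hV h x) := by
  apply Subtype.ext
  change φ (g * h) (x : E) = φ g (φ h (x : E))
  rw [map_mul]
  rfl

/-- the action on the quotient -/
def quo (φ : G →* AddMonoid.End E) (V : AddSubgroup E) (hV : Inv φ V) :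
    G →* AddMonoid.End (E ⧸ V) where
  toFun g := QuotientAddGroup.map V V (φ g : E →+ E) (fun x hx => hV g x hx)
  map_one' := by
    apply AddMonoidHom.ext
    intro x
    obtain ⟨x, rfl⟩ := QuotientAddGroup.mk_surjective x
    change ((φ 1 x : E) : E ⧸ V) = (x : E ⧸ V)
    rw [map_one]
    rfl
  map_mul' g h := by
    apply AddMonoidHom.ext
    intro x
    obtain ⟨x, rfl⟩ := QuotientAddGroup.mk_surjective x
    change ((φ (g * h) x : E) : E ⧸ V) = ((φ g (φ h x) : E) : E ⧸ V)
    rw [map_mul]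
    rfl

theorem quo_apply (φ : G →* AddMonoid.End E) (V : AddSubgroup E) (hV : Inv φ V) (g : G) (x : E) :
    quo φ V hV g (x : E ⧸ V) = ((φ g x : E) : E ⧸ V) := rfl

theorem pull (φ : G →* AddMonoid.End E) (V : AddSubgroup E) (hV : Inv φ V) (L : List ℕ) :
    ∀ A B : AddSubgroup (E ⧸ V), Chain (quo φ V hV) L A B →
      Chain φ L (A.comap (QuotientAddGroup.mk' V)) (B.comap (QuotientAddGroup.mk' V)) := by
  induction L with
  | nil =>
    intro A B h
    have h' : A = B := h
    rw [h']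
    exact rfl
  | cons a L ih =>
    intro A B h
    obtain ⟨C, hAC, hC, ht, hc⟩ := h
    refine ⟨C.comap (QuotientAddGroup.mk' V), AddSubgroup.comap_mono hAC, ?_, ?_, ih C B hc⟩
    · intro g x hx
      exact hC g _ hx
    · intro g hg x hx
      have h1 := ht g hg _ hx
      change ((φ g x - x : E) : E ⧸ V) ∈ A
      exact h1

theorem triv (M : ℝ) (hM : 0 < M) (ℓ : ℕ) (hlin : ∀ r ≤ ℓ, LinBF M r) (G : Type) [Group G]
    [Finite G] (hs : Group.IsSolvable G) (a : ℕ) (ha : M * ℓ < th ^ a) (W : Type)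
    [AddCommGroup W] [Finite W] (p : ℕ) [hp : Fact p.Prime] (hW : ∀ x : W, p • x = 0)
    (r : G → W →+ W) (h1 : ∀ x, r 1 x = x) (hm : ∀ g h x, r (g * h) x = r g (r h x))
    (hc : Nat.card W ≤ 2 ^ ℓ) : ∀ g ∈ derivedSeries G a, ∀ x, r g x = x := by
  obtain ⟨instM⟩ : Nonempty (Module (ZMod p) W) := ⟨AddCommGroup.zmodModule hW⟩
  haveI : FiniteDimensional (ZMod p) W := Module.Finite.of_finite
  let ρ : G →* Module.End (ZMod p) W :=
    { toFun := fun g => AddMonoidHom.toZModLinearMap p (r g)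
      map_one' := LinearMap.ext (fun x => h1 x)
      map_mul' := fun g h => LinearMap.ext (fun x => hm g h x) }
  have hr : Nat.card W = Nat.card (ZMod p) ^ Module.finrank (ZMod p) W :=
    Module.natCard_eq_pow_finrank
  have hfr : Module.finrank (ZMod p) W ≤ ℓ := by
    rw [hr, Nat.card_zmod] at hc
    have h4 : 2 ^ Module.finrank (ZMod p) W ≤ 2 ^ ℓ :=
      le_trans (Nat.pow_le_pow_left hp.out.two_le _) hc
    exact (Nat.pow_le_pow_iff_right (by norm_num)).1 h4
  have key := hlin _ hfr (ZMod p) W G hs ρ rfl a (lt_of_le_of_lt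
    (mul_le_mul_of_nonneg_left (by exact_mod_cast hfr) hM.le) ha)
  intro g hg x
  have h5 := key g hg
  have h6 : (ρ g) x = x := by
    rw [h5]
    rfl
  exact h6

theorem main (M : ℝ) (hM : 0 < M) (ℓ : ℕ) (hlin : ∀ r ≤ ℓ, LinBF M r) (G : Type) [Group G]
    [Finite G] (hs : Group.IsSolvable G) (a : ℕ) (ha : M * ℓ < th ^ a) :
    ∀ (n : ℕ) (E : Type) [AddCommGroup E] [Finite E] (φ : G →* AddMonoid.End E), n ≤ ℓ →
      Nat.card E ≤ 2 ^ n →
      ∃ L : List ℕ, (∀ x ∈ L, x ≤ a) ∧ L.length ≤ n ∧ Chain φ L ⊥ ⊤ := by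
  intro n
  induction n with
  | zero =>
    intro E _ _ φ _ hE
    rw [pow_zero] at hE
    haveI : Subsingleton E := Finite.card_le_one_iff_subsingleton.1 hE
    refine ⟨[], by simp, le_rfl, ?_⟩
    exact Subsingleton.elim (⊥ : AddSubgroup E) ⊤
  | succ n ih =>
    intro E _ _ φ hn hE
    rcases subsingleton_or_nontrivial E with hsub | hnt
    · refine ⟨[], by simp, Nat.zero_le _, ?_⟩
      exact Subsingleton.elim (⊥ : AddSubgroup E) ⊤
    have h2 : 1 < Nat.card E := Finite.one_lt_card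
    obtain ⟨p, hp, hpd⟩ := Nat.exists_prime_and_dvd (ne_of_gt h2)
    haveI : Fact p.Prime := ⟨hp⟩
    obtain ⟨x0, hx0⟩ := exists_prime_addOrderOf_dvd_card' p hpd
    obtain ⟨V, hVd⟩ : ∃ V : AddSubgroup E, ∀ x, x ∈ V ↔ p • x = 0 :=
      ⟨(nsmulAddMonoidHom p : E →+ E).ker, fun x => Iff.rfl⟩
    have hV : Inv φ V := by
      intro g x hx
      rw [hVd] at hx ⊢
      rw [← map_nsmul, hx, map_zero]
    have hx0V : x0 ∈ V := by
      rw [hVd, ← hx0]
      exact addOrderOf_nsmul_eq_zero x0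
    have hx00 : x0 ≠ 0 := by
      intro h
      rw [h, addOrderOf_zero] at hx0
      exact hp.one_lt.ne hx0
    haveI : Nontrivial V := ⟨⟨⟨x0, hx0V⟩, 0, fun h => hx00 (congrArg Subtype.val h)⟩⟩
    have hV2 : 1 < Nat.card V := Finite.one_lt_card
    have hcard := AddSubgroup.card_eq_card_quotient_mul_card_addSubgroup V
    have hq : Nat.card (E ⧸ V) ≤ 2 ^ n := by
      have h3 : Nat.card (E ⧸ V) * 2 ≤ 2 ^ n * 2 := by
        calc Nat.card (E ⧸ V) * 2 ≤ Nat.card (E ⧸ V) * Nat.card V :=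
              Nat.mul_le_mul_left _ hV2
          _ = Nat.card E := hcard.symm
          _ ≤ 2 ^ (n + 1) := hE
          _ = 2 ^ n * 2 := pow_succ 2 n
      exact Nat.le_of_mul_le_mul_right h3 (by norm_num)
    obtain ⟨L, hL1, hL2, hL3⟩ := ih (E ⧸ V) (quo φ V hV) (by omega) hq
    have hLc := pull φ V hV L _ _ hL3
    have e1 : (⊥ : AddSubgroup (E ⧸ V)).comap (QuotientAddGroup.mk' V) = V := by
      rw [AddMonoidHom.comap_bot, QuotientAddGroup.ker_mk']
    have e2 : (⊤ : AddSubgroup (E ⧸ V)).comap (QuotientAddGroup.mk' V) = ⊤ :=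
      AddSubgroup.comap_top _
    rw [e1, e2] at hLc
    refine ⟨a :: L, ?_, ?_, V, bot_le, hV, ?_, hLc⟩
    · intro x hx
      rcases List.mem_cons.1 hx with rfl | hx
      · exact le_rfl
      · exact hL1 x hx
    · simpa using hL2
    · have hVE : Nat.card V ≤ 2 ^ ℓ := le_trans (Nat.card_le_card_of_injective _
        (Subtype.val_injective)) (le_trans hE (Nat.pow_le_pow_right (by norm_num) hn))
      have key := triv M hM ℓ hlin G hs a ha V p
        (fun x => Subtype.ext (by simpa using (hVd x).1 x.2)) (res φ V hV)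
        (res_one φ V hV) (res_mul φ V hV) hVE
      intro g hg x hx
      have h7 : φ g x = x := congrArg Subtype.val (key g hg ⟨x, hx⟩)
      rw [h7, sub_self]
      exact zero_mem _

end AB

open AB in
/-- AB. -/
theorem p_AB (hC : S_CHAIN) (hU : S_UNIF) : S_AB := by
  intro M hM ℓ hlin G E _ _ hs _ _ φ hE a s ha hl
  obtain ⟨L, h1, h2, h3⟩ := AB.main M hM ℓ hlin G hs a ha ℓ E φ le_rfl hE
  refine hC φ L (a + s) (hU L a s h1 (le_trans h2 hl)) ⊥ ⊤ ?_ ?_ h3
  · intro g x hx
    rw [AddSubgroup.mem_bot] at hx ⊢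
    rw [hx, map_zero]
  · intro g x _
    exact AddSubgroup.mem_top _

end Pool.Agent.Work.MP_403fb3_h27
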