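import Pool.Agent.Work.MP_403fb3_h27.Interface

namespace Pool.Agent.Work.MP_403fb3_h27

open Subgroup

theorem p_CARD (hEIG : S_EIG) : S_CARD := by
  classical
  intro K V G _ _ _ _ _ _ _ ρ B hZB hcomm hself
  have hmem : ∀ g ∈ B, ∀ b ∈ B, ∃ z : K, z ≠ 0 ∧
      ρ (g * b * g⁻¹) = z • ρ b := by
    intro g hg b hb
    obtain ⟨z, hz, h⟩ := hcomm (Subgroup.commutator_mem_commutator hg hb)
    refine ⟨z, hz, ?_⟩
    have h1 : g * b * g⁻¹ = (g * b * g⁻¹ * b⁻¹) * b := by group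
    rw [h1, map_mul]
    have h2 : ρ (g * b * g⁻¹ * b⁻¹) = z • 1 := h
    rw [h2, smul_mul_assoc, one_mul]
  let Q : Type := B ⧸ (Zs ρ).subgroupOf B
  have hQf : Finite Q := by infer_instance
  let bq : Q → G := fun q => ((Quotient.out q : B) : G)
  have hbq : ∀ q, bq q ∈ B := fun q => (Quotient.out q : B).2
  let μ : Q → B → K := fun q g => Classical.choose (hmem g.1 g.2 (bq q) (hbq q))
  have hμ0 : ∀ q g, μ q g ≠ 0 := fun q g =>
    (Classical.choose_spec (hmem g.1 g.2 (bq q) (hbq q))).1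
  have hμ : ∀ (q : Q) (g : B), ρ (g.1 * bq q * g.1⁻¹) = μ q g • ρ (bq q) := fun q g =>
    (Classical.choose_spec (hmem g.1 g.2 (bq q) (hbq q))).2
  let T : B → Module.End K V →ₗ[K] Module.End K V := fun g =>
    (LinearMap.mulLeft K (ρ g.1)).comp (LinearMap.mulRight K (ρ g.1⁻¹))
  have hinv : ∀ x : G, ρ x * ρ x⁻¹ = 1 := fun x => by rw [← map_mul, mul_inv_cancel, map_one]
  have hinv' : ∀ x : G, ρ x⁻¹ * ρ x = 1 := fun x => by rw [← map_mul, inv_mul_cancel, map_one]
  have hv0 : ∀ q : Q, ρ (bq q) ≠ 0 := by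
    intro q h0
    have h1 := hinv (bq q)
    rw [h0, zero_mul] at h1
    exact zero_ne_one h1
  have hli : LinearIndependent K (fun q : Q => ρ (bq q)) := by
    refine hEIG (fun q : Q => ρ (bq q)) hv0 T μ ?_ ?_
    · intro q g
      rw [← hμ q g]
      change ρ g.1 * (ρ (bq q) * ρ g.1⁻¹) = _
      rw [← map_mul, ← map_mul, mul_assoc]
    · intro q q' hqq
      have hx : (bq q)⁻¹ * bq q' ∈ Zs ρ := by
        apply hself
        intro c hc
        have e1 : ρ (c * bq q * c⁻¹) = μ q ⟨c, hc⟩ • ρ (bq q) := hμ q ⟨c, hc⟩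
        have e2 : ρ (c * bq q' * c⁻¹) = μ q' ⟨c, hc⟩ • ρ (bq q') := hμ q' ⟨c, hc⟩
        have e3 : μ q' ⟨c, hc⟩ = μ q ⟨c, hc⟩ := by rw [hqq]
        rw [e3] at e2
        have e4 : ρ (c * bq q * c⁻¹) * ρ (c * ((bq q)⁻¹ * bq q') * c⁻¹) =
            ρ (c * bq q' * c⁻¹) := by
          rw [← map_mul]
          congr 1
          group
        rw [e1, e2, smul_mul_assoc] at e4
        have e5 : ρ (bq q) * ρ (c * ((bq q)⁻¹ * bq q') * c⁻¹) = ρ (bq q') :=
          smul_right_injective _ (hμ0 q ⟨c, hc⟩) e4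
        have e6 : ρ (c * ((bq q)⁻¹ * bq q') * c⁻¹) = ρ ((bq q)⁻¹ * bq q') := by
          have e7 : ρ ((bq q)⁻¹ * bq q') = ρ (bq q)⁻¹ * ρ (bq q') := map_mul _ _ _
          rw [e7, ← e5]
          generalize ρ (c * ((bq q)⁻¹ * bq q') * c⁻¹) = Y
          rw [← mul_assoc (ρ (bq q)⁻¹) (ρ (bq q)) Y, hinv', one_mul]
        calc ρ ((bq q)⁻¹ * bq q' * c) = ρ ((bq q)⁻¹ * bq q') * ρ c := map_mul _ _ _
          _ = ρ (c * ((bq q)⁻¹ * bq q') * c⁻¹) * ρ c := by rw [e6]
          _ = ρ (c * ((bq q)⁻¹ * bq q')) := by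
            rw [← map_mul]
            congr 1
            group
      have hq : (QuotientGroup.mk (Quotient.out q : B) : Q) = QuotientGroup.mk (Quotient.out q' : B) := by
        rw [QuotientGroup.eq, Subgroup.mem_subgroupOf]
        exact hx
      rwa [QuotientGroup.out_eq', QuotientGroup.out_eq'] at hq
  have := Fintype.ofFinite Q
  have hcard := hli.fintype_card_le_finrank
  have hfin : Module.finrank K (Module.End K V) = Module.finrank K V * Module.finrank K V :=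
    Module.finrank_linearMap K K V V
  rw [hfin] at hcard
  have hidx : (Zs ρ).relIndex B = Fintype.card Q := by
    rw [← Nat.card_eq_fintype_card]
    rfl
  rw [hidx, sq]
  exact hcard

end Pool.Agent.Work.MP_403fb3_h27
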