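import Pool.Agent.Work.MP_403fb3_h27.Interface

/-!
# Block CHAIN: chains of invariant subgroups
-/

namespace Pool.Agent.Work.MP_403fb3_h27

open Subgroup

namespace CHAIN

theorem le_of_chain {G E : Type} [Group G] [AddCommGroup E] (φ : G →* AddMonoid.End E) :
    ∀ (L : List ℕ) (A B : AddSubgroup E), Chain φ L A B → A ≤ B
  | [], A, B, h => by
      have h' : A = B := h
      exact h'.le
  | (a :: L), A, B, h => by
      obtain ⟨C, h1, _, _, h4⟩ := h
      exact h1.trans (le_of_chain φ L C B h4)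

theorem split {G E : Type} [Group G] [AddCommGroup E] (φ : G →* AddMonoid.End E) :
    ∀ (L₁ L₂ : List ℕ) (A B : AddSubgroup E), Inv φ A → Chain φ (L₁ ++ L₂) A B →
      ∃ C : AddSubgroup E, Inv φ C ∧ Chain φ L₁ A C ∧ Chain φ L₂ C B
  | [], L₂, A, B, hA, h => ⟨A, hA, rfl, h⟩
  | (a :: L₁), L₂, A, B, _, h => by
      obtain ⟨C, h1, h2, h3, h4⟩ := h
      obtain ⟨C', h5, h6, h7⟩ := split φ L₁ L₂ C B h2 h4
      exact ⟨C', h5, ⟨C, h1, h2, h3, h6⟩, h7⟩

end CHAIN

theorem p_CHAIN (h : S_COMM) : S_CHAIN := by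
  intro G E _ _ φ L t hm
  induction hm with
  | nil t =>
    intro A B hA _ hc g _ x hx
    have hAB : A = B := hc
    rw [← hAB] at hx
    exact A.sub_mem (hA g x hx) hx
  | single a t hat =>
    intro A B hA _ hc g hg x hx
    obtain ⟨C, _, _, h3, h4⟩ := hc
    have hCB : C = B := h4
    rw [← hCB] at hx
    exact h3 g (derivedSeries_antitone G hat hg) x hx
  | app L₁ L₂ t _ _ ih₁ ih₂ =>
    intro A B hA hB hc
    obtain ⟨C, hC, h1, h2⟩ := CHAIN.split φ L₁ L₂ A B hA hc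
    have e1 := ih₁ A C hA hC h1
    have e2 := ih₂ C B hC hB h2
    rw [derivedSeries_succ]
    exact h φ (derivedSeries G t) A C B (CHAIN.le_of_chain φ _ _ _ h1)
      (CHAIN.le_of_chain φ _ _ _ h2) hA hC hB e1 e2

end Pool.Agent.Work.MP_403fb3_h27
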