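import Pool.Agent.Work.MP_403fb3_h27.Interface

/-!
# Block COMM: commutators act trivially on a two step section
-/

namespace Pool.Agent.Work.MP_403fb3_h27

open Subgroup
open scoped commutatorElement

theorem p_COMM : S_COMM := by
  intro G E _ _ φ D A B C hAB hBC hA hB hC h1 h2
  have mulA : ∀ (a b : AddMonoid.End E) (x : E), (a * b) x = a (b x) := fun _ _ _ => rfl
  have oneA : ∀ x : E, (1 : AddMonoid.End E) x = x := fun _ => rfl
  let H : Subgroup G :=
    { carrier := {g | ∀ x ∈ C, φ g x - x ∈ A}
      mul_mem' := by
        intro g h hg hh x hx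
        have e : φ (g * h) x - x = φ g (φ h x - x) + (φ g x - x) := by
          rw [map_mul, mulA, map_sub]
          abel
        rw [e]
        exact A.add_mem (hA g _ (hh x hx)) (hg x hx)
      one_mem' := by
        intro x _
        rw [map_one, oneA, sub_self]
        exact A.zero_mem
      inv_mem' := by
        intro g hg x hx
        have e0 : φ g⁻¹ (φ g x) = x := by
          rw [← mulA, ← map_mul, inv_mul_cancel, map_one,
            oneA]
        have e : φ g⁻¹ x - x = -(φ g⁻¹ (φ g x - x)) := by
          rw [map_sub, e0]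
          abel
        rw [e]
        exact A.neg_mem (hA _ _ (hg x hx)) }
  have hle : ⁅D, D⁆ ≤ H := by
    rw [Subgroup.commutator_le]
    intro g hg h hh x hx
    let y : E := φ (h * g)⁻¹ x
    have hy : y ∈ C := hC _ _ hx
    have hxy : φ (h * g) y = x := by
      simp only [y]
      rw [← mulA, ← map_mul, mul_inv_cancel, map_one, oneA]
    have hgy : φ ⁅g, h⁆ x = φ (g * h) y := by
      simp only [y]
      rw [← mulA, ← map_mul]
      congr 2
      rw [commutatorElement_def]
      group
    have hb : φ h y - y ∈ B := h2 h hh y hy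
    have hb' : φ g y - y ∈ B := h2 g hg y hy
    have e1 := h1 g hg _ hb
    have e2 := h1 h hh _ hb'
    have e : φ ⁅g, h⁆ x - x = (φ g (φ h y - y) - (φ h y - y)) - (φ h (φ g y - y) - (φ g y - y)) := by
      rw [hgy]
      conv_lhs => rw [← hxy]
      rw [map_mul, map_mul, mulA, mulA, map_sub, map_sub]
      abel
    rw [e]
    exact A.sub_mem e1 e2
  intro g hg x hx
  exact hle hg x hx

end Pool.Agent.Work.MP_403fb3_h27
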