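import Pool.Agent.Work.MP_403fb3_h27.Interface

/-!
# Block CONJ
-/

namespace Pool.Agent.Work.MP_403fb3_h27

open Subgroup

namespace CONJ

variable {G : Type} [Group G] (Z B : Subgroup G) [hZ : Z.Normal] [hB : B.Normal]

/-- the quotient -/
abbrev Q : Type := B ⧸ Z.subgroupOf B

theorem map_le (g : G) : Z.subgroupOf B ≤
    (Z.subgroupOf B).comap (MulAut.conjNormal g : B ≃* B).toMonoidHom := by
  intro b hb
  rw [Subgroup.mem_comap, Subgroup.mem_subgroupOf]
  rw [Subgroup.mem_subgroupOf] at hb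
  have h1 : (((MulAut.conjNormal g : B ≃* B).toMonoidHom b : B) : G) = g * b * g⁻¹ :=
    MulAut.conjNormal_apply g b
  rw [h1]
  exact hZ.conj_mem _ hb g

/-- the conjugation on the quotient -/
def psi (g : G) : Q Z B →* Q Z B :=
  QuotientGroup.map _ _ (MulAut.conjNormal g : B ≃* B).toMonoidHom (map_le Z B g)

theorem psi_mk (g : G) (b : B) : psi Z B g (b : Q Z B) =
    ((MulAut.conjNormal g b : B) : Q Z B) := rfl

theorem psi_one (q : Q Z B) : psi Z B 1 q = q := by
  induction q using QuotientGroup.induction_on with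
  | H b =>
    rw [psi_mk, map_one]
    rfl

theorem psi_mul (g h : G) (q : Q Z B) : psi Z B (g * h) q = psi Z B g (psi Z B h q) := by
  induction q using QuotientGroup.induction_on with
  | H b =>
    rw [psi_mk, psi_mk, psi_mk, map_mul]
    rfl

theorem mem_of_fix {g b : G} (hb : b ∈ B) (h : psi Z B g ((⟨b, hb⟩ : B) : Q Z B) = ((⟨b, hb⟩ : B) : Q Z B)) :
    g * b * g⁻¹ * b⁻¹ ∈ Z := by
  rw [psi_mk, QuotientGroup.eq, Subgroup.mem_subgroupOf] at h
  have h1 : (((MulAut.conjNormal g (⟨b, hb⟩ : B))⁻¹ * (⟨b, hb⟩ : B) : B) : G) =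
      (g * b * g⁻¹)⁻¹ * b := by
    rw [Subgroup.coe_mul, Subgroup.coe_inv, MulAut.conjNormal_apply]
  rw [h1] at h
  have h2 := hZ.conj_mem _ (Z.inv_mem h) b
  have h3 : b * ((g * b * g⁻¹)⁻¹ * b)⁻¹ * b⁻¹ = g * b * g⁻¹ * b⁻¹ := by group
  rw [h3] at h2
  exact h2

theorem comm (hcomm : ⁅B, B⁆ ≤ Z) (x y : Q Z B) : x * y = y * x := by
  induction x using QuotientGroup.induction_on with
  | H a =>
    induction y using QuotientGroup.induction_on with
    | H b =>
      rw [← QuotientGroup.mk_mul, ← QuotientGroup.mk_mul, QuotientGroup.eq,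
        Subgroup.mem_subgroupOf]
      apply hcomm
      have h1 := Subgroup.commutator_mem_commutator (B.inv_mem b.2) (B.inv_mem a.2)
      rw [commutatorElement_def] at h1
      have h2 : (((a * b)⁻¹ * (b * a) : B) : G) =
          (b : G)⁻¹ * (a : G)⁻¹ * (b : G)⁻¹⁻¹ * (a : G)⁻¹⁻¹ := by
        push_cast
        group
      rw [h2]
      exact h1

end CONJ

open CONJ in
theorem p_CONJ (hAB : S_AB) (hP : S_PERM) : S_CONJ := by
  intro G _ _ hs Z B hZ hB hZB hcomm
  have hcard : Nat.card (Q Z B) = Z.relIndex B := rfl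
  refine ⟨?_, ?_⟩
  · intro M hM ℓ hlin hE a s ha hl g hg b hb
    letI : CommGroup (Q Z B) := { (inferInstance : Group (Q Z B)) with
      mul_comm := CONJ.comm Z B hcomm }
    let φ : G →* AddMonoid.End (Additive (Q Z B)) :=
      { toFun := fun g => MonoidHom.toAdditive (psi Z B g)
        map_one' := by
          ext x
          exact psi_one Z B x
        map_mul' := by
          intro g h
          ext x
          exact psi_mul Z B g h x }
    have h1 := hAB M hM ℓ hlin G (Additive (Q Z B)) hs φ (by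
      rw [← hcard] at hE
      exact hE) a s ha hl
    have h2 := h1 g hg (Additive.ofMul ((⟨b, hb⟩ : B) : Q Z B)) trivial
    rw [AddSubgroup.mem_bot, sub_eq_zero] at h2
    exact mem_of_fix Z B hb h2
  · intro d hd g hg b hb
    letI : MulAction G (Q Z B) :=
      { smul := fun g q => psi Z B g q
        one_smul := psi_one Z B
        mul_smul := psi_mul Z B }
    have h2 := hP G (Q Z B) hs d (by rw [hcard]; exact hd) g hg ((⟨b, hb⟩ : B) : Q Z B)
    exact mem_of_fix Z B hb h2

end Pool.Agent.Work.MP_403fb3_h27
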