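import Pool.Agent.Work.MP_403fb3_h27.Interface

/-!
# Block EIG: simultaneous eigenvectors with distinct characters are independent
-/

namespace Pool.Agent.Work.MP_403fb3_h27

theorem p_EIG : S_EIG := by
  intro K M ι S _ _ _ v hv T μ h hinj
  classical
  rw [linearIndependent_iff']
  intro s
  induction s using Finset.induction_on with
  | empty => intro g _ i hi; exact absurd hi (Finset.notMem_empty i)
  | insert a s ha ih =>
    intro g hg
    have key : ∀ i ∈ s, g i = 0 := by
      intro i hi
      have hne : i ≠ a := fun e => ha (e ▸ hi)
      obtain ⟨t, ht⟩ : ∃ t, μ i t ≠ μ a t := by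
        by_contra hcon
        push Not at hcon
        exact hne (hinj (funext hcon))
      have h1 : ∑ j ∈ insert a s, (g j * μ j t) • v j = 0 := by
        have h0 := congrArg (T t) hg
        rw [map_sum, map_zero] at h0
        rw [← h0]
        refine Finset.sum_congr rfl fun j _ => ?_
        rw [map_smul, h, smul_smul]
      have h2 : ∑ j ∈ insert a s, (g j * (μ j t - μ a t)) • v j = 0 := by
        have e : ∀ j, (g j * (μ j t - μ a t)) • v j =
            (g j * μ j t) • v j - μ a t • (g j • v j) := by
          intro j
          rw [smul_smul, ← sub_smul]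
          congr 1
          ring
        rw [Finset.sum_congr rfl fun j _ => e j, Finset.sum_sub_distrib, ← Finset.smul_sum, h1, hg,
          smul_zero, sub_zero]
      rw [Finset.sum_insert ha, sub_self, mul_zero, zero_smul, zero_add] at h2
      have h3 := ih _ h2 i hi
      exact (mul_eq_zero.1 h3).resolve_right (sub_ne_zero.2 ht)
    intro i hi
    rcases Finset.mem_insert.1 hi with rfl | hi
    · rw [Finset.sum_insert ha, Finset.sum_eq_zero (fun j hj => by rw [key j hj, zero_smul]),
        add_zero] at hg
      exact (smul_eq_zero.1 hg).resolve_right (hv _)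
    · exact key i hi

end Pool.Agent.Work.MP_403fb3_h27
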