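import Pool.Agent.Work.MP_403fb3_h27.Interface

/-!
# Block EIGV: a common eigenvector of commuting operators
-/

namespace Pool.Agent.Work.MP_403fb3_h27

theorem p_EIGV : S_EIGV := by
  intro K V S _ _ _ _ _ T hT W hW hinv
  induction h : Module.finrank K W using Nat.strong_induction_on generalizing W with
  | _ n ih =>
  by_cases hs : ∀ s, ∃ z : K, ∀ w ∈ W, T s w = z • w
  · obtain ⟨w, hw, hw0⟩ := Submodule.exists_mem_ne_zero_of_ne_bot hW
    exact ⟨w, hw, hw0, fun s => (hs s).imp fun z hz => hz w hw⟩
  · push Not at hs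
    obtain ⟨s, hs⟩ := hs
    haveI : Nontrivial W := Submodule.nontrivial_iff_ne_bot.mpr hW
    obtain ⟨z, hz⟩ := Module.End.exists_eigenvalue ((T s).restrict (hinv s))
    obtain ⟨v, hv⟩ := hz.exists_hasEigenvector
    have hv1 : T s (v : V) = z • (v : V) := by
      have := congrArg Subtype.val hv.apply_eq_smul
      simpa using this
    have hv0 : (v : V) ≠ 0 := fun h0 => hv.2 (Subtype.ext h0)
    have hmem : ∀ w : V, w ∈ W ⊓ LinearMap.ker (T s - z • (1 : Module.End K V)) ↔
        w ∈ W ∧ T s w = z • w := by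
      intro w
      simp [sub_eq_zero]
    have hlt : W ⊓ LinearMap.ker (T s - z • (1 : Module.End K V)) < W := by
      refine lt_of_le_of_ne inf_le_left fun he => ?_
      obtain ⟨w, hw, hne⟩ := hs z
      rw [← he, hmem] at hw
      exact hne hw.2
    obtain ⟨w, hw, hw0, hw1⟩ := ih _ (h ▸ Submodule.finrank_lt_finrank_of_lt hlt)
      (W ⊓ LinearMap.ker (T s - z • (1 : Module.End K V)))
      (fun hb => hv0 (by
        have : (v : V) ∈ W ⊓ LinearMap.ker (T s - z • (1 : Module.End K V)) :=
          (hmem _).2 ⟨v.2, hv1⟩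
        rw [hb] at this
        exact this))
      (fun s' w hw => by
        rw [hmem] at hw ⊢
        refine ⟨hinv s' w hw.1, ?_⟩
        have h1 : T s (T s' w) = T s' (T s w) := by
          have := LinearMap.congr_fun (hT s s') w
          simpa using this
        rw [h1, hw.2, map_smul])
      rfl
    exact ⟨w, ((hmem w).1 hw).1, hw0, hw1⟩

end Pool.Agent.Work.MP_403fb3_h27
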