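import Pool.Agent.Work.MP_403fb3_h27.Interface

/-!
# Block FJ
-/

namespace Pool.Agent.Work.MP_403fb3_h27

open Pool.Agent.Work.MP_403fb3_al_helper9 in
theorem p_FJ (h : S_TH) : S_FJ := by
  obtain ⟨h1, -, h5⟩ := h
  have hpos : 0 < th := by linarith
  have hup : th < 1.552 := by
    by_contra hc
    have h2 : (1.552 : ℝ) ^ 5 ≤ th ^ 5 := pow_le_pow_left₀ (by norm_num) (not_lt.1 hc) 5
    rw [h5] at h2
    norm_num at h2
  have hlo : 1.55 < th := by
    by_contra hc
    have h2 : th ^ 5 ≤ (1.55 : ℝ) ^ 5 := pow_le_pow_left₀ hpos.le (not_lt.1 hc) 5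
    rw [h5] at h2
    norm_num at h2
  have u2 : th ^ 2 < 2.41 := by nlinarith
  have u3 : th ^ 3 < 3.75 := by
    have : th ^ 3 = th ^ 2 * th := by ring
    rw [this]
    nlinarith [pow_pos hpos 2]
  have u4 : th ^ 4 < 5.9 := by
    have : th ^ 4 = th ^ 2 * th ^ 2 := by ring
    rw [this]
    nlinarith [pow_pos hpos 2]
  have l2 : 2.4 < th ^ 2 := by nlinarith
  have l3 : 3.7 < th ^ 3 := by
    have : th ^ 3 = th ^ 2 * th := by ring
    rw [this]
    nlinarith [pow_pos hpos 2]
  have l4 : 5.7 < th ^ 4 := by
    have : th ^ 4 = th ^ 2 * th ^ 2 := by ring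
    rw [this]
    nlinarith [pow_pos hpos 2]
  have e6 : th ^ 6 = 9 * th := by
    have : th ^ 6 = th ^ 5 * th := by ring
    rw [this, h5]
  have e7 : th ^ 7 = 9 * th ^ 2 := by
    have : th ^ 7 = th ^ 5 * th ^ 2 := by ring
    rw [this, h5]
  have e8 : th ^ 8 = 9 * th ^ 3 := by
    have : th ^ 8 = th ^ 5 * th ^ 3 := by ring
    rw [this, h5]
  have e9 : th ^ 9 = 9 * th ^ 4 := by
    have : th ^ 9 = th ^ 5 * th ^ 4 := by ring
    rw [this, h5]
  have f0 : fj 0 = 1 := rfl
  have f1 : fj 1 = 2 := rfl
  have f2 : fj 2 = 3 := rfl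
  have f3 : fj 3 = 4 := rfl
  have f4 : fj 4 = 8 := rfl
  have f5 : fj 5 = 9 := rfl
  have f6 : fj 6 = 16 := rfl
  have f7 : fj 7 = 27 := rfl
  have f8 : fj 8 = 36 := rfl
  have f9 : fj 9 = 64 := rfl
  have f10 : fj 10 = 81 := rfl
  refine ⟨?_, ?_⟩
  · intro d
    induction d using Nat.strong_induction_on with
    | _ d ih =>
      rcases Nat.lt_or_ge d 10 with h | h
      · interval_cases d
        · rw [f0]; norm_num
        · rw [f1]; push_cast; linarith
        · rw [f2]; push_cast; linarith
        · rw [f3]; push_cast; linarith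
        · rw [f4]; push_cast; linarith
        · rw [f5]; push_cast; linarith
        · rw [f6]; push_cast; linarith
        · rw [f7]; push_cast; linarith
        · rw [f8]; push_cast; linarith
        · rw [f9]; push_cast; linarith
      · obtain ⟨k, rfl⟩ := Nat.exists_eq_add_of_le h
        have h2 := ih (k + 5) (by omega)
        rw [Nat.add_comm 10 k, fj_add_ten]
        push_cast
        have h3 : th ^ (k + 10) = 9 * th ^ (k + 5) := by
          have : th ^ (k + 10) = th ^ 5 * th ^ (k + 5) := by ring
          rw [this, h5]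
        rw [h3]
        linarith
  · have key : ∀ d : ℕ, (fj (d + 6) : ℝ) ≤ 4 * th ^ (d + 5) := by
      intro d
      induction d using Nat.strong_induction_on with
      | _ d ih =>
        rcases Nat.lt_or_ge d 5 with h | h
        · interval_cases d
          · simp only [Nat.zero_add]; rw [f6, h5]; norm_num
          · norm_num only; rw [f7, e6]; push_cast; linarith
          · norm_num only; rw [f8, e7]; push_cast; linarith
          · norm_num only; rw [f9, e8]; push_cast; linarith
          · norm_num only; rw [f10, e9]; push_cast; linarith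
        · obtain ⟨k, rfl⟩ := Nat.exists_eq_add_of_le h
          have h2 := ih k (by omega)
          have h4 : fj (5 + k + 6) = 9 * fj (k + 6) := by
            rw [show 5 + k + 6 = (k + 1) + 10 by ring, fj_add_ten]
          have h3 : th ^ (5 + k + 5) = 9 * th ^ (k + 5) := by
            have : th ^ (5 + k + 5) = th ^ 5 * th ^ (k + 5) := by ring
            rw [this, h5]
          rw [h4, h3]
          push_cast
          linarith
    intro d
    rcases Nat.lt_or_ge d 5 with h | h
    · interval_cases d <;> simp only [am] <;> norm_num <;> linarith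
    · obtain ⟨k, rfl⟩ := Nat.exists_eq_add_of_le h
      rw [Nat.add_comm 5 k]
      exact key k

end Pool.Agent.Work.MP_403fb3_h27
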