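import Pool.Agent.Work.MP_403fb3_h27.Interface

namespace Pool.Agent.Work.MP_403fb3_h27

open Subgroup

theorem p_GEN (hTH : S_TH) (hJH : S_JH) (hWT : S_WT) (hKRAFT : S_KRAFT) (hCHAIN : S_CHAIN) :
    S_GEN := by
  classical
  obtain ⟨h1, h2, h5⟩ := hTH
  intro M hM n hi K V G _ _ _ _ _ _ _ hs ρ hn d hd g hg
  have hex : ∀ m : ℕ, ∃ a : ℕ, M * m < th ^ a := fun m => pow_unbounded_of_one_lt (M * m) h1
  let f : ℕ → ℕ := fun m => Nat.find (hex m)
  have hf1 : ∀ m : ℕ, M * m < th ^ f m := fun m => Nat.find_spec (hex m)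
  have hf2 : ∀ m a : ℕ, M * m < th ^ a → f m ≤ a := fun m a h => Nat.find_min' (hex m) h
  obtain ⟨ms, hms, hsum, hch⟩ := hJH ρ f (by
    intro U _ _ _ σ hσ h1U hUV g hg
    exact hi (Module.finrank K U) h1U (hUV.trans hn.le) K U G hs σ hσ rfl _ (hf1 _) g hg)
  have hk := hWT M hM f hf1 hf2 ms hms d (by rw [hsum, hn]; exact hd)
  have hm := hKRAFT (ms.map f) d hk
  have ht := hCHAIN (lin ρ) (ms.map f) d hm ⊥ ⊤
    (by intro g x hx; rw [AddSubgroup.mem_bot] at hx ⊢; rw [hx, map_zero])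
    (by intro g x _; exact AddSubgroup.mem_top _) hch
  ext x
  have h := ht g hg x (AddSubgroup.mem_top _)
  rw [AddSubgroup.mem_bot, sub_eq_zero] at h
  exact h

end Pool.Agent.Work.MP_403fb3_h27
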