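import Pool.Agent.Work.MP_403fb3_h27.Interface

set_option autoImplicit false

namespace Pool.Agent.Work.MP_403fb3_h27

open Subgroup

namespace IND

variable {K V G : Type} [Field K] [AddCommGroup V] [Module K V] [FiniteDimensional K V]
  [Group G] [Finite G]

/-- pairs -/
def Pair (ρ : G →* Module.End K V) (N : Subgroup G) (W : Submodule K V) : Prop :=
  W ≠ ⊥ ∧ (∀ g ∈ N, ∀ w ∈ W, ρ g w ∈ W) ∧
    N.index * Module.finrank K W = Module.finrank K V

theorem span_top (ρ : G →* Module.End K V) (hirr : Irr ρ) {W : Submodule K V} (hW : W ≠ ⊥)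
    (X : Submodule K V) (hX : ∀ g : G, ∀ w ∈ W, ρ g w ∈ X) : X = ⊤ := by
  have h0 : ∀ g : G, ∀ w ∈ (⨆ g : G, W.map (ρ g)), ρ g w ∈ (⨆ g : G, W.map (ρ g)) := by
    intro g w hw
    have h2 : (⨆ g : G, W.map (ρ g)) ≤ (⨆ g : G, W.map (ρ g)).comap (ρ g) := by
      refine iSup_le fun k => ?_
      rw [Submodule.map_le_iff_le_comap]
      intro u hu
      have h3 : ρ (g * k) u ∈ ⨆ g : G, W.map (ρ g) :=
        Submodule.mem_iSup_of_mem (g * k) (Submodule.mem_map_of_mem hu)
      rw [map_mul] at h3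
      exact h3
    exact h2 hw
  have h1 : (⨆ g : G, W.map (ρ g)) = ⊤ := by
    rcases hirr (⨆ g : G, W.map (ρ g)) h0 with h | h
    · exfalso
      apply hW
      rw [eq_bot_iff]
      intro w hw
      have h2 : ρ 1 w ∈ ⨆ g : G, W.map (ρ g) :=
        Submodule.mem_iSup_of_mem 1 (Submodule.mem_map_of_mem hw)
      rw [h] at h2
      simpa using h2
    · exact h
  rw [eq_top_iff, ← h1]
  refine iSup_le fun g => ?_
  rw [Submodule.map_le_iff_le_comap]
  intro w hw
  exact hX g w hw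

theorem inj (ρ : G →* Module.End K V) (g : G) {w : V} (h : ρ g w = 0) : w = 0 := by
  have h1 : (ρ g⁻¹ * ρ g) w = 0 := by
    rw [Module.End.mul_apply, h, map_zero]
  rw [← map_mul, inv_mul_cancel, map_one] at h1
  exact h1

/-- translates of `W₁` -/
noncomputable def Phi (ρ : G →* Module.End K V) (W₁ : Submodule K V) {I : Type} [Fintype I]
    (r : I → G) : (I → W₁) →ₗ[K] V :=
  ∑ i, (ρ (r i)) ∘ₗ W₁.subtype ∘ₗ (LinearMap.proj i)

theorem Phi_apply (ρ : G →* Module.End K V) (W₁ : Submodule K V) {I : Type} [Fintype I]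
    (r : I → G) (f : I → W₁) : Phi ρ W₁ r f = ∑ i, ρ (r i) (f i : V) := by
  simp [Phi]

theorem finrank_pi' (W₁ : Submodule K V) (I : Type) [Fintype I] :
    Module.finrank K (I → W₁) = Nat.card I * Module.finrank K W₁ := by
  rw [Module.finrank_pi_fintype, Finset.sum_const, Finset.card_univ, smul_eq_mul,
    Nat.card_eq_fintype_card]

/-- weight space -/
def ws (ρ : G →* Module.End K V) (A : Subgroup G) (W : Submodule K V) (χ : G → K) :
    Submodule K V where
  carrier := {w | w ∈ W ∧ ∀ a ∈ A, ρ a w = χ a • w}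
  add_mem' := by
    rintro u w ⟨hu, hu'⟩ ⟨hw, hw'⟩
    exact ⟨W.add_mem hu hw, fun a ha => by rw [map_add, hu' a ha, hw' a ha, smul_add]⟩
  zero_mem' := ⟨W.zero_mem, fun a _ => by rw [map_zero, smul_zero]⟩
  smul_mem' := by
    rintro c w ⟨hw, hw'⟩
    exact ⟨W.smul_mem c hw, fun a ha => by rw [map_smul, hw' a ha, smul_comm]⟩

theorem mem_ws {ρ : G →* Module.End K V} {A : Subgroup G} {W : Submodule K V} {χ : G → K} {w : V} :
    w ∈ ws ρ A W χ ↔ w ∈ W ∧ ∀ a ∈ A, ρ a w = χ a • w := Iff.rfl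

/-- stabiliser of the weight -/
def st (N A : Subgroup G) (hn : ∀ h ∈ N, ∀ a ∈ A, h * a * h⁻¹ ∈ A) (χ : G → K) : Subgroup G where
  carrier := {g | g ∈ N ∧ ∀ a ∈ A, χ (g⁻¹ * a * g) = χ a}
  mul_mem' := by
    rintro g h ⟨hg, hg'⟩ ⟨hh, hh'⟩
    refine ⟨N.mul_mem hg hh, fun a ha => ?_⟩
    have h1 : g⁻¹ * a * g ∈ A := by
      have := hn g⁻¹ (N.inv_mem hg) a ha
      rwa [inv_inv] at this
    rw [show (g * h)⁻¹ * a * (g * h) = h⁻¹ * (g⁻¹ * a * g) * h by group, hh' _ h1, hg' a ha]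
  one_mem' := ⟨N.one_mem, fun a _ => by simp⟩
  inv_mem' := by
    rintro g ⟨hg, hg'⟩
    refine ⟨N.inv_mem hg, fun a ha => ?_⟩
    have h1 := hg' _ (hn g hg a ha)
    rw [show g⁻¹ * (g * a * g⁻¹) * g = a by group] at h1
    rw [inv_inv, ← h1]

theorem mem_st {N A : Subgroup G} {hn : ∀ h ∈ N, ∀ a ∈ A, h * a * h⁻¹ ∈ A} {χ : G → K} {g : G} :
    g ∈ st N A hn χ ↔ g ∈ N ∧ ∀ a ∈ A, χ (g⁻¹ * a * g) = χ a := Iff.rfl

theorem wt {ρ : G →* Module.End K V} {N A : Subgroup G}
    (hn : ∀ h ∈ N, ∀ a ∈ A, h * a * h⁻¹ ∈ A) {W : Submodule K V} {χ : G → K} {g : G} (hg : g ∈ N)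
    {w : V} (hw : w ∈ ws ρ A W χ) {a : G} (ha : a ∈ A) :
    ρ a (ρ g w) = χ (g⁻¹ * a * g) • ρ g w := by
  have h1 : g⁻¹ * a * g ∈ A := by
    have := hn g⁻¹ (N.inv_mem hg) a ha
    rwa [inv_inv] at this
  have h2 : ρ a (ρ g w) = ρ g (ρ (g⁻¹ * a * g) w) := by
    rw [← Module.End.mul_apply, ← Module.End.mul_apply, ← map_mul, ← map_mul]
    congr 2
    group
  rw [h2, hw.2 _ h1, map_smul]

end IND

open IND in
theorem p_IND (hV : S_EIGV) (hE : S_EIG) : S_IND := by
  intro K V G _ _ _ _ _ _ _ _ ρ hirr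
  classical
  have hex : ∃ k : ℕ, ∃ (N : Subgroup G) (W : Submodule K V), Pair ρ N W ∧
      Module.finrank K W = k := by
    refine ⟨_, ⊤, ⊤, ⟨top_ne_bot, fun g _ w _ => Submodule.mem_top, ?_⟩, rfl⟩
    rw [Subgroup.index_top, one_mul, finrank_top]
  obtain ⟨N, W, ⟨hW, hNW, hind⟩, hk⟩ := Nat.find_spec hex
  have hmin : ∀ (N' : Subgroup G) (W' : Submodule K V), Pair ρ N' W' →
      Module.finrank K W ≤ Module.finrank K W' := by
    intro N' W' h
    rw [hk]
    exact Nat.find_min' hex ⟨N', W', h, rfl⟩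
  refine ⟨N, W, hW, hNW, hind, span_top ρ hirr hW, ?_⟩
  intro A hAN hn hcomm a₀ ha₀
  by_contra hno
  push Not at hno
  -- common eigenvector
  have hr : ∀ s : A, ∀ w ∈ W, ρ s w ∈ W := fun s w hw => hNW _ (hAN s.2) w hw
  obtain ⟨w₀, -, hw₀, hz⟩ := hV (K := K) (V := W) (S := A)
    (fun s => (ρ (s : G)).restrict (hr s))
    (by
      intro s s'
      ext w
      have h1 := hcomm s s.2 s' s'.2 w w.2
      rw [map_mul, map_mul] at h1
      exact h1)
    ⊤ (by
      intro h
      apply hW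
      rw [eq_bot_iff]
      intro w hw
      have h1 : (⟨w, hw⟩ : W) ∈ (⊤ : Submodule K W) := Submodule.mem_top
      rw [h, Submodule.mem_bot] at h1
      exact congrArg Subtype.val h1) (fun s w _ => Submodule.mem_top)
  have hz' : ∀ a : G, a ∈ A → ∃ z : K, ρ a (w₀ : V) = z • (w₀ : V) := by
    intro a ha
    obtain ⟨z, hz⟩ := hz ⟨a, ha⟩
    exact ⟨z, congrArg Subtype.val hz⟩
  choose! χ hχ using hz'
  have hw₁ : (w₀ : V) ∈ ws ρ A W χ := ⟨w₀.2, hχ⟩
  have hw₀' : (w₀ : V) ≠ 0 := fun h => hw₀ (Subtype.ext h)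
  have hW₁ : ws ρ A W χ ≠ ⊥ := by
    intro h
    rw [h, Submodule.mem_bot] at hw₁
    exact hw₀' hw₁
  have hle : ws ρ A W χ ≤ W := fun w hw => hw.1
  have hlt : ws ρ A W χ < W := by
    refine lt_of_le_of_ne hle fun h => ?_
    obtain ⟨w, hw, hw'⟩ := hno (χ a₀)
    rw [← h] at hw
    exact hw' (hw.2 a₀ ha₀)
  have hfr := Submodule.finrank_lt_finrank_of_lt hlt
  have hN₁N : st N A hn χ ≤ N := fun g hg => hg.1
  have hinv₁ : ∀ g ∈ st N A hn χ, ∀ w ∈ ws ρ A W χ, ρ g w ∈ ws ρ A W χ := by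
    intro g hg w hw
    refine ⟨hNW g hg.1 w hw.1, fun a ha => ?_⟩
    rw [wt hn hg.1 hw ha, hg.2 a ha]
  -- first inequality
  have hb1 : (st N A hn χ).relIndex N * Module.finrank K (ws ρ A W χ) ≤ Module.finrank K W := by
    have := Fintype.ofFinite (N ⧸ (st N A hn χ).subgroupOf N)
    have h1 := finrank_pi' (ws ρ A W χ) (N ⧸ (st N A hn χ).subgroupOf N)
    have h2 : Nat.card (N ⧸ (st N A hn χ).subgroupOf N) = (st N A hn χ).relIndex N := rfl
    rw [h2] at h1
    rw [← h1]
    set r : (N ⧸ (st N A hn χ).subgroupOf N) → G := fun i => (i.out : G) with hrdef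
    have hrN : ∀ i, r i ∈ N := fun i => i.out.2
    have hinj : Function.Injective (Phi ρ (ws ρ A W χ) r) := by
      rw [injective_iff_map_eq_zero]
      intro f hf
      by_contra hne
      rw [Phi_apply] at hf
      have h3 : ∃ i, f i ≠ 0 := by
        by_contra h
        push Not at h
        exact hne (funext h)
      obtain ⟨i₀, hi₀⟩ := h3
      have h4 : LinearIndependent K
          (fun i : {i : N ⧸ (st N A hn χ).subgroupOf N // f i ≠ 0} => ρ (r i) (f i : V)) := by
        refine hE (K := K) (M := V) (S := A) _ ?_ (fun s => ρ (s : G))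
          (fun i s => χ ((r i)⁻¹ * s * r i)) ?_ ?_
        · intro i h
          exact i.2 (Subtype.ext (inj ρ _ h))
        · intro i s
          exact wt hn (hrN i) (f i).2 s.2
        · intro i j hij
          apply Subtype.ext
          have h5 : ((r i)⁻¹ * r j) ∈ st N A hn χ := by
            refine ⟨N.mul_mem (N.inv_mem (hrN i)) (hrN j), fun a ha => ?_⟩
            have h6 := congrFun hij ⟨r i * a * (r i)⁻¹, hn _ (hrN i) a ha⟩
            simp only at h6
            rw [show (r i)⁻¹ * (r i * a * (r i)⁻¹) * r i = a by group] at h6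
            rw [h6]
            congr 1
            group
          rw [← QuotientGroup.out_eq' i.1, ← QuotientGroup.out_eq' j.1, QuotientGroup.eq,
            Subgroup.mem_subgroupOf]
          exact h5
      rw [Fintype.linearIndependent_iff] at h4
      have h5 := h4 (fun _ => 1) ?_ ⟨i₀, hi₀⟩
      · exact one_ne_zero h5
      · simp only [one_smul]
        rw [← hf]
        refine (Finset.sum_subtype (p := fun i => f i ≠ 0)
          (Finset.univ.filter fun i => f i ≠ 0) (by simp)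
          (fun i => ρ (r i) (f i : V))).symm.trans ?_
        refine Finset.sum_filter_of_ne fun i _ hi h7 => ?_
        apply hi
        rw [h7]
        simp
    rw [← LinearMap.finrank_range_of_inj hinj]
    apply Submodule.finrank_mono
    rintro _ ⟨f, rfl⟩
    rw [Phi_apply]
    exact W.sum_mem fun i _ => hNW _ (hrN i) _ (f i).2.1
  -- second inequality
  have hb2 : Module.finrank K V ≤
      (st N A hn χ).index * Module.finrank K (ws ρ A W χ) := by
    have := Fintype.ofFinite (G ⧸ st N A hn χ)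
    have h1 := finrank_pi' (ws ρ A W χ) (G ⧸ st N A hn χ)
    have h2 : Nat.card (G ⧸ st N A hn χ) = (st N A hn χ).index := rfl
    rw [h2] at h1
    rw [← h1]
    set r : (G ⧸ st N A hn χ) → G := fun i => i.out with hrdef
    have h3 : LinearMap.range (Phi ρ (ws ρ A W χ) r) = ⊤ := by
      apply span_top ρ hirr hW₁
      intro g w hw
      have h4 : (r (g : G ⧸ st N A hn χ))⁻¹ * g ∈ st N A hn χ := by
        rw [← QuotientGroup.eq]
        exact QuotientGroup.out_eq' _
      have h5 := hinv₁ _ h4 w hw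
      refine ⟨Pi.single (g : G ⧸ st N A hn χ) ⟨_, h5⟩, ?_⟩
      rw [Phi_apply, Finset.sum_eq_single (g : G ⧸ st N A hn χ)]
      · rw [Pi.single_eq_same, ← Module.End.mul_apply, ← map_mul]
        congr 2
        group
      · intro i _ hi
        rw [Pi.single_eq_of_ne hi]
        simp
      · intro h
        exact absurd (Finset.mem_univ _) h
    have h6 := LinearMap.finrank_range_le (Phi ρ (ws ρ A W χ) r)
    rw [h3, finrank_top] at h6
    exact h6
  have hidx := Subgroup.relIndex_mul_index hN₁N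
  have hpair : Pair ρ (st N A hn χ) (ws ρ A W χ) := by
    refine ⟨hW₁, hinv₁, le_antisymm ?_ hb2⟩
    rw [← hind, ← hidx]
    calc (st N A hn χ).relIndex N * N.index * Module.finrank K (ws ρ A W χ)
        = N.index * ((st N A hn χ).relIndex N * Module.finrank K (ws ρ A W χ)) := by ring
      _ ≤ N.index * Module.finrank K W := Nat.mul_le_mul_left _ hb1
  have := hmin _ _ hpair
  omega

end Pool.Agent.Work.MP_403fb3_h27
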