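import Pool.Agent.Work.MP_403fb3_h27.Interface

/-! Block IRR (helper45): the bound for irreducible groups. -/

set_option autoImplicit false

namespace Pool.Agent.Work.MP_403fb3_h27

namespace IRR

open Subgroup

theorem ds_le {G : Type} [Group G] (N : Subgroup G) (P : ℕ) (h : derivedSeries G P ≤ N) (e : ℕ) :
    derivedSeries G (P + e) ≤ (derivedSeries (↥N) e).map N.subtype := by
  induction e with
  | zero =>
    rw [Nat.add_zero, derivedSeries_zero, ← MonoidHom.range_eq_map, Subgroup.range_subtype]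
    exact h
  | succ e ih =>
    rw [← Nat.add_assoc, derivedSeries_succ, derivedSeries_succ, Subgroup.map_commutator]
    exact Subgroup.commutator_mono ih ih

section res

variable {K V G : Type} [Field K] [AddCommGroup V] [Module K V] [Group G]

/-- the restriction of the action to `N` and `W` -/
def res (ρ : G →* Module.End K V) (N : Subgroup G) (W : Submodule K V)
    (h : ∀ g ∈ N, ∀ w ∈ W, ρ g w ∈ W) : (↥N) →* Module.End K (↥W) where
  toFun g := (ρ g).restrict (h g g.2)
  map_one' := by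
    ext w
    simp [LinearMap.restrict_apply]
  map_mul' a b := by
    ext w
    simp [LinearMap.restrict_apply]

theorem res_apply (ρ : G →* Module.End K V) (N : Subgroup G) (W : Submodule K V)
    (h : ∀ g ∈ N, ∀ w ∈ W, ρ g w ∈ W) (g : ↥N) (w : ↥W) :
    ((res ρ N W h g w : ↥W) : V) = ρ g w := rfl

theorem res_prm (ρ : G →* Module.End K V) (N : Subgroup G) (W : Submodule K V) (hW : W ≠ ⊥)
    (h : ∀ g ∈ N, ∀ w ∈ W, ρ g w ∈ W)
    (hp : ∀ A : Subgroup G, A ≤ N → (∀ h ∈ N, ∀ a ∈ A, h * a * h⁻¹ ∈ A) →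
        (∀ a ∈ A, ∀ b ∈ A, ∀ w ∈ W, ρ (a * b) w = ρ (b * a) w) →
        ∀ a ∈ A, ∃ z : K, ∀ w ∈ W, ρ a w = z • w) : Prm (res ρ N W h) := by
  intro A hA hc a ha
  have h1 := hp (A.map N.subtype) (Subgroup.map_subtype_le A) (by
    rintro g hg x ⟨y, hy, rfl⟩
    exact ⟨⟨g, hg⟩ * y * ⟨g, hg⟩⁻¹, hA.conj_mem y hy ⟨g, hg⟩, rfl⟩) (by
    rintro x ⟨x, hx, rfl⟩ y ⟨y, hy, rfl⟩ w hw
    have h2 := congrArg (fun f : Module.End K (↥W) => ((f ⟨w, hw⟩ : ↥W) : V)) (hc x hx y hy)
    exact h2) a ⟨a, ha, rfl⟩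
  obtain ⟨z, hz⟩ := h1
  have h3 : res ρ N W h a = z • (1 : Module.End K (↥W)) := by
    ext w
    exact hz w w.2
  refine ⟨z, ?_, h3⟩
  rintro rfl
  rw [zero_smul] at h3
  obtain ⟨w, hw, hw0⟩ := Submodule.exists_mem_ne_zero_of_ne_bot hW
  apply hw0
  have h4 : res ρ N W h (a⁻¹ * a) = 0 := by rw [map_mul, h3, mul_zero]
  rw [inv_mul_cancel, map_one] at h4
  have h5 := congrArg (fun f : Module.End K (↥W) => ((f ⟨w, hw⟩ : ↥W) : V)) h4
  exact h5

end res

end IRR

open IRR in
theorem p_IRR (hTH : S_TH) (hPERM : S_PERM) (hIND : S_IND) : S_IRR := by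
  intro M hM n hn hp K V G _ _ _ _ _ _ _ hs ρ hirr hdim d hd g hg
  obtain ⟨t1, -, -⟩ := hTH
  have t0 : (0 : ℝ) < th := lt_trans one_pos t1
  haveI : Nontrivial V := Module.nontrivial_of_finrank_pos (R := K) (by omega)
  obtain ⟨N, W, hW, hinv, hidx, hspan, hprm⟩ := hIND ρ hirr
  set c := N.index with hc
  set b := Module.finrank K W with hb
  have hcb : c * b = n := by rw [hidx, hdim]
  have hb1 : 1 ≤ b := by
    rcases Nat.eq_zero_or_pos b with h | h
    · rw [h, Nat.mul_zero] at hcb; omega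
    · exact h
  have hc1 : 1 ≤ c := by
    rcases Nat.eq_zero_or_pos c with h | h
    · rw [h, Nat.zero_mul] at hcb; omega
    · exact h
  have hbn : b ≤ n := by
    rw [← hcb]; exact Nat.le_mul_of_pos_left b hc1
  have hcR : (1 : ℝ) ≤ c := by exact_mod_cast hc1
  have hbR : (1 : ℝ) ≤ b := by exact_mod_cast hb1
  have hnR : (n : ℝ) = c * b := by rw [← hcb]; push_cast; rfl
  -- the minimal `P`
  have hex : ∃ P : ℕ, (c : ℝ) < th ^ P := pow_unbounded_of_one_lt _ t1
  obtain ⟨P, hP, hPm⟩ : ∃ P : ℕ, (c : ℝ) < th ^ P ∧ th ^ P ≤ th * c := by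
    classical
    refine ⟨Nat.find hex, Nat.find_spec hex, ?_⟩
    rcases Nat.eq_zero_or_pos (Nat.find hex) with h | h
    · rw [h, pow_zero]
      nlinarith
    · obtain ⟨Q, hQ⟩ : ∃ Q, Nat.find hex = Q + 1 := ⟨Nat.find hex - 1, by omega⟩
      have h2 := Nat.find_min hex (show Q < Nat.find hex by omega)
      rw [hQ, pow_succ, mul_comm]
      exact mul_le_mul_of_nonneg_left (not_lt.mp h2) t0.le
  have hPd : P < d := by
    have h1 : th ^ P < th ^ d := by
      refine lt_of_le_of_lt hPm (lt_of_le_of_lt ?_ hd)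
      rw [hnR]
      have : (c : ℝ) ≤ M * (c * b) := by
        have h3 : (c : ℝ) * 1 ≤ c * b := mul_le_mul_of_nonneg_left hbR (by linarith)
        nlinarith
      calc th * c ≤ th * (M * (c * b)) := mul_le_mul_of_nonneg_left this t0.le
        _ = th * M * (c * b) := by ring
    exact (pow_lt_pow_iff_right₀ t1).mp h1
  obtain ⟨e, rfl⟩ : ∃ e, d = P + e := ⟨d - P, by omega⟩
  have he : M * b < th ^ e := by
    have h1 : th * M * (c * b) < th * c * th ^ e := by
      rw [← hnR]
      refine lt_of_lt_of_le hd ?_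
      rw [pow_add]
      exact mul_le_mul_of_nonneg_right hPm (pow_nonneg t0.le e)
    have h2 : (0 : ℝ) < th * c := by positivity
    have h3 : th * c * (M * b) < th * c * th ^ e := by
      calc th * c * (M * b) = th * M * (c * b) := by ring
        _ < _ := h1
    exact lt_of_mul_lt_mul_left h3 h2.le
  -- `G^(P) ≤ N`
  have hPN : derivedSeries G P ≤ N := by
    intro x hx
    have h1 := hPERM G (G ⧸ N) hs P (by
      have : Nat.card (G ⧸ N) = c := rfl
      rw [this]; exact hP) x hx ((1 : G) : G ⧸ N)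
    have h2 : ((x * 1 : G) : G ⧸ N) = ((1 : G) : G ⧸ N) := h1
    rw [mul_one, eq_comm, QuotientGroup.eq, inv_one, one_mul] at h2
    exact h2
  haveI := hs
  have hsN : Group.IsSolvable (↥N) := inferInstance
  have hPr := hp b hb1 hbn K (↥W) (↥N) hsN (res ρ N W hinv) (res_prm ρ N W hW hinv hprm) rfl e he
  have hfix : ∀ x ∈ derivedSeries G (P + e), ∀ w ∈ W, ρ x w = w := by
    intro x hx w hw
    obtain ⟨y, hy, rfl⟩ := ds_le N P hPN e hx
    have h1 := congrArg (fun f : Module.End K (↥W) => ((f ⟨w, hw⟩ : ↥W) : V)) (hPr y hy)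
    exact h1
  have hX := hspan
    { carrier := {v | ∀ x ∈ derivedSeries G (P + e), ρ x v = v}
      add_mem' := by
        intro a b ha hb x hx
        rw [map_add, ha x hx, hb x hx]
      zero_mem' := by
        intro x _
        exact map_zero _
      smul_mem' := by
        intro z a ha x hx
        rw [map_smul, ha x hx] } (by
    intro k w hw x hx
    have h1 : k⁻¹ * x * k ∈ derivedSeries G (P + e) := by
      have := (derivedSeries_normal G (P + e)).conj_mem x hx k⁻¹
      rwa [inv_inv] at this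
    have h2 := hfix _ h1 w hw
    have h3 : x * k = k * (k⁻¹ * x * k) := by group
    calc ρ x (ρ k w) = ρ (x * k) w := by rw [map_mul]; rfl
      _ = ρ (k * (k⁻¹ * x * k)) w := by rw [← h3]
      _ = ρ k (ρ (k⁻¹ * x * k) w) := by rw [map_mul]; rfl
      _ = ρ k w := by rw [h2])
  ext v
  have hv : v ∈ (⊤ : Submodule K V) := Submodule.mem_top
  rw [← hX] at hv
  exact hv g hg

end Pool.Agent.Work.MP_403fb3_h27
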