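import Pool.Agent.Work.MP_403fb3_h27.Interface

/-!
# Block JH: a composition series as a chain
-/

namespace Pool.Agent.Work.MP_403fb3_h27

open Subgroup

namespace JH

variable {K V G : Type} [Field K] [AddCommGroup V] [Module K V] [Group G]

/-- The action on a quotient. -/
def quo (ρ : G →* Module.End K V) (W : Submodule K V) (hW : ∀ g : G, ∀ w ∈ W, ρ g w ∈ W) :
    G →* Module.End K (V ⧸ W) where
  toFun g := W.mapQ W (ρ g) (fun w hw => hW g w hw)
  map_one' := by
    refine Submodule.linearMap_qext _ ?_
    ext x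
    simp
  map_mul' g h := by
    refine Submodule.linearMap_qext _ ?_
    ext x
    simp

theorem quo_mk (ρ : G →* Module.End K V) (W : Submodule K V)
    (hW : ∀ g : G, ∀ w ∈ W, ρ g w ∈ W) (g : G) (x : V) :
    quo ρ W hW g (W.mkQ x) = W.mkQ (ρ g x) := rfl

/-- The action on an invariant subspace. -/
def sub (ρ : G →* Module.End K V) (W : Submodule K V) (hW : ∀ g : G, ∀ w ∈ W, ρ g w ∈ W) :
    G →* Module.End K W where
  toFun g := (ρ g).restrict (hW g)
  map_one' := by
    ext x
    simp
  map_mul' g h := by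
    ext x
    simp

theorem sub_coe (ρ : G →* Module.End K V) (W : Submodule K V)
    (hW : ∀ g : G, ∀ w ∈ W, ρ g w ∈ W) (g : G) (x : W) :
    ((sub ρ W hW g x : W) : V) = ρ g x := rfl

/-- A minimal invariant subspace. -/
theorem exists_irr [FiniteDimensional K V] [Nontrivial V] (ρ : G →* Module.End K V) :
    ∃ (X : Submodule K V) (hX : ∀ g : G, ∀ w ∈ X, ρ g w ∈ X), X ≠ ⊥ ∧ Irr (sub ρ X hX) := by
  classical
  have hex : ∃ m : ℕ, ∃ X : Submodule K V, X ≠ ⊥ ∧ (∀ g : G, ∀ w ∈ X, ρ g w ∈ X) ∧
      Module.finrank K X = m := ⟨_, ⊤, top_ne_bot, fun _ _ _ => Submodule.mem_top, rfl⟩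
  obtain ⟨X, h1, h2, h3⟩ := Nat.find_spec hex
  refine ⟨X, h2, h1, ?_⟩
  intro Y hY
  by_cases hb : Y = ⊥
  · exact Or.inl hb
  refine Or.inr ?_
  have hmin : Nat.find hex ≤ Module.finrank K (Y.map X.subtype) := by
    refine Nat.find_min' hex ⟨Y.map X.subtype, ?_, ?_, rfl⟩
    · intro h
      apply hb
      rw [eq_bot_iff]
      intro y hy
      have h4 : X.subtype y ∈ Y.map X.subtype := ⟨y, hy, rfl⟩
      rw [h, Submodule.mem_bot] at h4
      rw [Submodule.mem_bot]
      exact Subtype.ext h4
    · rintro g _ ⟨y, hy, rfl⟩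
      exact ⟨sub ρ X h2 g y, hY g y hy, rfl⟩
  rw [← h3] at hmin
  have hle : Module.finrank K (Y.map X.subtype) = Module.finrank K Y :=
    (Submodule.equivMapOfInjective X.subtype X.injective_subtype Y).finrank_eq.symm
  exact Submodule.eq_top_of_finrank_eq (le_antisymm (Submodule.finrank_le Y) (hle ▸ hmin))

end JH

open JH in
theorem p_JH : S_JH := by
  intro K V G _ _ _ _ _ ρ f hf
  have key : ∀ n : ℕ, ∀ W : Submodule K V, (∀ g : G, ∀ w ∈ W, ρ g w ∈ W) →
      Module.finrank K (V ⧸ W) = n → ∃ ms : List ℕ, (∀ m ∈ ms, 1 ≤ m) ∧ ms.sum = n ∧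
        Chain (lin ρ) (ms.map f) W.toAddSubgroup ⊤ := by
    intro n
    induction n using Nat.strong_induction_on with
    | _ n ih =>
      intro W hW hn
      by_cases ht : W = ⊤
      · refine ⟨[], by simp, ?_, ?_⟩
        · have : Subsingleton (V ⧸ W) := Submodule.Quotient.subsingleton_iff.2 ht
          rw [← hn, Module.finrank_zero_of_subsingleton]
          rfl
        · show W.toAddSubgroup = ⊤
          rw [ht]
          rfl
      · have hnt : Nontrivial (V ⧸ W) := Submodule.Quotient.nontrivial_iff.2 ht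
        obtain ⟨X, hX, hX0, hirr⟩ := exists_irr (quo ρ W hW)
        have hm1 : 1 ≤ Module.finrank K X := by
          rw [Nat.one_le_iff_ne_zero, Ne, Submodule.finrank_eq_zero]
          exact hX0
        have hm2 : Module.finrank K X ≤ Module.finrank K (V ⧸ W) := Submodule.finrank_le X
        have hm3 : Module.finrank K (V ⧸ W) ≤ Module.finrank K V := Submodule.finrank_quotient_le W
        have htriv := hf X (sub (quo ρ W hW) X hX) hirr hm1 (hm2.trans hm3)
        have hinv : ∀ g : G, ∀ w ∈ X.comap W.mkQ, ρ g w ∈ X.comap W.mkQ := by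
          intro g w hw
          rw [Submodule.mem_comap] at hw ⊢
          rw [← quo_mk ρ W hW]
          exact hX g _ hw
        have hle : W ≤ X.comap W.mkQ := by
          intro w hw
          have h4 : W.mkQ w = 0 := (Submodule.Quotient.mk_eq_zero W).2 hw
          rw [Submodule.mem_comap, h4]
          exact X.zero_mem
        have hmap : (X.comap W.mkQ).map W.mkQ = X :=
          Submodule.map_comap_eq_of_surjective W.mkQ_surjective X
        have hfr : Module.finrank K (V ⧸ X.comap W.mkQ) = n - Module.finrank K X := by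
          have e1 := (Submodule.quotientQuotientEquivQuotient W (X.comap W.mkQ) hle).finrank_eq
          rw [hmap] at e1
          have e2 := Submodule.finrank_quotient_add_finrank X
          rw [← e1]
          omega
        obtain ⟨ms, h1, h2, h3⟩ := ih (n - Module.finrank K X) (by omega) (X.comap W.mkQ) hinv hfr
        refine ⟨Module.finrank K X :: ms, ?_, ?_, ?_⟩
        · intro m hm
          rcases List.mem_cons.1 hm with rfl | hm
          · exact hm1
          · exact h1 m hm
        · rw [List.sum_cons, h2]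
          omega
        · refine ⟨(X.comap W.mkQ).toAddSubgroup, hle, ?_, ?_, h3⟩
          · exact fun g x hx => hinv g x hx
          · intro g hg x hx
            have h5 : sub (quo ρ W hW) X hX g = 1 := htriv g hg
            have h6 := congrArg (fun (T : Module.End K X) =>
              ((T ⟨W.mkQ x, hx⟩ : X) : V ⧸ W)) h5
            have h7 : W.mkQ (ρ g x) = W.mkQ x := h6
            have h8 : W.mkQ (ρ g x - x) = 0 := by rw [map_sub, h7, sub_self]
            exact (Submodule.Quotient.mk_eq_zero W).1 h8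
  obtain ⟨ms, h1, h2, h3⟩ := key (Module.finrank K (V ⧸ (⊥ : Submodule K V))) ⊥
    (fun g w hw => by
      rw [Submodule.mem_bot] at hw ⊢
      rw [hw, map_zero]) rfl
  refine ⟨ms, h1, ?_, h3⟩
  rw [h2]
  exact (Submodule.quotEquivOfEqBot (⊥ : Submodule K V) rfl).finrank_eq

end Pool.Agent.Work.MP_403fb3_h27
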