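import Pool.Agent.Work.MP_403fb3_h27.Interface

/-!
# Block KRAFT: the alphabetic Kraft inequality
-/

namespace Pool.Agent.Work.MP_403fb3_h27

namespace KRAFT

/-- the gap condition -/
def Gap (x y : ℕ × ℕ) : Prop := x.1 + 2 ^ x.2 ≤ y.1 ∧ x.1 + 2 ^ y.2 ≤ y.1

theorem split (c : ℕ) : ∀ L : List (ℕ × ℕ), L.Pairwise Gap →
    ∃ L₁ L₂ : List (ℕ × ℕ), L = L₁ ++ L₂ ∧ (∀ x ∈ L₁, x.1 < c) ∧ (∀ x ∈ L₂, c ≤ x.1)
  | [], _ => ⟨[], [], rfl, by simp, by simp⟩
  | (x :: L), h => by
      obtain ⟨h1, h2⟩ := List.pairwise_cons.1 h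
      by_cases hx : x.1 < c
      · obtain ⟨L₁, L₂, e, h3, h4⟩ := split c L h2
        refine ⟨x :: L₁, L₂, by rw [e, List.cons_append], ?_, h4⟩
        intro y hy
        rcases List.mem_cons.1 hy with rfl | hy
        · exact hx
        · exact h3 y hy
      · refine ⟨[], x :: L, rfl, by simp, ?_⟩
        intro y hy
        rcases List.mem_cons.1 hy with rfl | hy
        · omega
        · have := (h1 y hy).1
          have h5 : 0 < 2 ^ x.2 := by positivity
          omega

theorem mer : ∀ (t c : ℕ) (L : List (ℕ × ℕ)),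
    (∀ x ∈ L, c ≤ x.1 ∧ x.1 < c + 2 ^ t ∧ x.2 ≤ t) → L.Pairwise Gap →
    Mer (L.map Prod.snd) t := by
  intro t
  induction t with
  | zero =>
    intro c L h1 h2
    match L, h1, h2 with
    | [], _, _ => exact Mer.nil 0
    | [x], h1, _ => exact Mer.single x.2 0 (h1 x (by simp)).2.2
    | (x :: y :: L), h1, h2 =>
      exfalso
      have e1 := h1 x (by simp)
      have e2 := h1 y (by simp)
      have e3 := ((List.pairwise_cons.1 h2).1 y (by simp)).1
      have e4 : 0 < 2 ^ x.2 := by positivity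
      rw [pow_zero] at e2
      omega
  | succ t ih =>
    intro c L h1 h2
    match L, h1, h2 with
    | [], _, _ => exact Mer.nil _
    | [x], h1, _ => exact Mer.single x.2 _ (h1 x (by simp)).2.2
    | (x :: y :: L), h1, h2 =>
      have hlt : ∀ z ∈ (x :: y :: L), z.2 ≤ t := by
        intro z hz
        have e0 := h1 x (by simp)
        rcases List.mem_cons.1 hz with rfl | hz'
        · have e2 := h1 y (by simp)
          have e3 := ((List.pairwise_cons.1 h2).1 y (by simp)).1
          have e4 : 2 ^ z.2 < 2 ^ (t + 1) := by omega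
          exact Nat.lt_succ_iff.1 ((Nat.pow_lt_pow_iff_right (by norm_num)).1 e4)
        · have e2 := h1 z hz
          have e3 := ((List.pairwise_cons.1 h2).1 z hz').2
          have e4 : 2 ^ z.2 < 2 ^ (t + 1) := by omega
          exact Nat.lt_succ_iff.1 ((Nat.pow_lt_pow_iff_right (by norm_num)).1 e4)
      obtain ⟨L₁, L₂, e, h3, h4⟩ := split (c + 2 ^ t) (x :: y :: L) h2
      rw [e] at h1 h2 hlt ⊢
      obtain ⟨p1, p2, _⟩ := List.pairwise_append.1 h2
      rw [List.map_append]
      apply Mer.app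
      · apply ih c L₁ _ p1
        intro z hz
        have hz' : z ∈ L₁ ++ L₂ := List.mem_append.2 (Or.inl hz)
        exact ⟨(h1 z hz').1, h3 z hz, hlt z hz'⟩
      · apply ih (c + 2 ^ t) L₂ _ p2
        intro z hz
        have hz' : z ∈ L₁ ++ L₂ := List.mem_append.2 (Or.inr hz)
        refine ⟨h4 z hz, ?_, hlt z hz'⟩
        have := (h1 z hz').2.1
        rw [pow_succ] at this
        omega

/-- the positions -/
def pos : ℕ → List ℕ → List (ℕ × ℕ)
  | _, [] => []
  | y, (a :: L) => (y + 2 ^ a, a) :: pos (y + 2 ^ (a + 1)) L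

theorem pos_snd : ∀ (L : List ℕ) (y : ℕ), (pos y L).map Prod.snd = L
  | [], _ => rfl
  | (a :: L), y => by
      rw [pos, List.map_cons, pos_snd L]

theorem pos_mem : ∀ (L : List ℕ) (y : ℕ), ∀ x ∈ pos y L, y + 2 ^ x.2 ≤ x.1 ∧
    x.1 + 2 ^ x.2 ≤ y + (L.map (fun a => 2 ^ (a + 1))).sum
  | [], _ => by
      intro x hx
      simp [pos] at hx
  | (a :: L), y => by
      intro x hx
      rw [pos] at hx
      rw [List.map_cons, List.sum_cons]
      rcases List.mem_cons.1 hx with rfl | hx
      · simp only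
        rw [pow_succ]
        omega
      · have h6 := pos_mem L _ x hx
        have h7 : 0 < 2 ^ (a + 1) := by positivity
        omega

theorem pos_pair : ∀ (L : List ℕ) (y : ℕ), (pos y L).Pairwise Gap
  | [], _ => List.Pairwise.nil
  | (a :: L), y => by
      rw [pos]
      refine List.pairwise_cons.2 ⟨?_, pos_pair L _⟩
      intro z hz
      have h1 := (pos_mem L _ z hz).1
      have h2 : 2 ^ (a + 1) = 2 ^ a + 2 ^ a := by rw [pow_succ]; ring
      constructor
      · simp only
        have : 0 < 2 ^ z.2 := by positivity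
        omega
      · simp only
        have : 0 < 2 ^ a := by positivity
        omega

end KRAFT

theorem p_KRAFT : S_KRAFT := by
  intro L t h
  have h1 := KRAFT.mer t 0 (KRAFT.pos 0 L) ?_ (KRAFT.pos_pair L 0)
  · rwa [KRAFT.pos_snd] at h1
  · intro x hx
    obtain ⟨e1, e2⟩ := KRAFT.pos_mem L 0 x hx
    have e3 : 0 < 2 ^ x.2 := by positivity
    refine ⟨Nat.zero_le _, by omega, ?_⟩
    have e4 : 2 ^ x.2 ≤ 2 ^ t := by omega
    exact (Nat.pow_le_pow_iff_right (by norm_num)).1 e4

end Pool.Agent.Work.MP_403fb3_h27
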