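import Pool.Agent.Work.MP_403fb3_h27.Interface

namespace Pool.Agent.Work.MP_403fb3_h27

theorem p_MAIN (hTH : S_TH) (hPRIM : S_PRIM) (hIRR : S_IRR) (hGEN : S_GEN) (hBASE : S_BASE) :
    S_MAIN := by
  obtain ⟨h1, h2, h5⟩ := hTH
  have hth3 : (1 : ℝ) ≤ th ^ 3 := one_le_pow₀ h1.le
  obtain ⟨M1, hM1, hP⟩ := hPRIM (th ^ 3) hth3
  refine ⟨th ^ 3 * M1, one_le_mul_of_one_le_of_one_le hth3 hM1, ?_⟩
  intro n
  induction n using Nat.strong_induction_on with
  | _ n ih =>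
    have hprim : ∀ b, 1 ≤ b → b ≤ n → PrimB M1 b := by
      intro b hb hbn
      exact hP M1 le_rfl b hb (fun r hr => ih r (lt_of_lt_of_le hr hbn))
    have hirr : ∀ m, 1 ≤ m → m ≤ n → IrrB (th * M1) m := by
      intro m hm hmn
      exact hIRR M1 hM1 m hm (fun b hb hbm => hprim b hb (hbm.trans hmn))
    have hth1 : 1 ≤ th * M1 := one_le_mul_of_one_le_of_one_le h1.le hM1
    have hg := hGEN (th * M1) hth1 n hirr
    have hb := hBASE _ n hg
    have he : th ^ 2 * (th * M1) = th ^ 3 * M1 := by ring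
    rw [he] at hb
    exact hb

end Pool.Agent.Work.MP_403fb3_h27
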