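import Pool.Agent.Work.MP_403fb3_h27.Interface

/-!
# Block PERM
-/

namespace Pool.Agent.Work.MP_403fb3_h27

open Pool.Agent.Work.MP_403fb3_al_helper9 in
theorem p_PERM (h : S_FJ) : S_PERM := by
  intro G Y _ _ _ hs d hc g hg y
  by_contra hy
  have h1 := degree_bound hs hg hy
  have h2 := h.1 (d + 1)
  have h3 : (1 : ℝ) < th := by
    unfold th
    exact Real.one_lt_rpow (by norm_num) (by norm_num)
  have h4 : th ^ d < th ^ (d + 1) := pow_lt_pow_right₀ h3 (Nat.lt_succ_self d)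
  have h5 : ((fj (d + 1) : ℕ) : ℝ) ≤ (Nat.card Y : ℝ) := by exact_mod_cast h1
  linarith

end Pool.Agent.Work.MP_403fb3_h27
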