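import Pool.Agent.Work.MP_403fb3_h27.Interface

set_option autoImplicit false

namespace Pool.Agent.Work.MP_403fb3_h27

open Subgroup

namespace PRIM

lemma exists_L0 (K : ℝ) (hK : 0 < K) : ∃ L0 : ℕ, 1 ≤ L0 ∧ ∀ L : ℕ, L0 ≤ L →
    K * ((L : ℝ) + 1) ^ 2 ≤ 2 ^ L := by
  have h := tendsto_pow_const_div_const_pow_of_one_lt 2 (by norm_num : (1:ℝ) < 2)
  have h2 : ∀ᶠ n : ℕ in Filter.atTop, (n:ℝ) ^ 2 / (2:ℝ) ^ n < 1 / (4 * K) :=
    h.eventually_lt_const (by positivity)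
  obtain ⟨N, hN⟩ := Filter.eventually_atTop.1 h2
  refine ⟨max N 1, le_max_right _ _, fun L hL => ?_⟩
  have hL1 : (1:ℝ) ≤ L := by
    have : 1 ≤ L := le_trans (le_max_right _ _) hL
    exact_mod_cast this
  have h3 := hN L (le_trans (le_max_left _ _) hL)
  have h2L : (0:ℝ) < 2 ^ L := by positivity
  rw [div_lt_div_iff₀ h2L (by positivity)] at h3
  have h4 : ((L:ℝ) + 1) ^ 2 ≤ 4 * (L:ℝ) ^ 2 := by nlinarith
  calc K * ((L:ℝ) + 1) ^ 2 ≤ K * (4 * (L:ℝ) ^ 2) := mul_le_mul_of_nonneg_left h4 hK.le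
    _ ≤ 2 ^ L := by nlinarith

/-- the least `a` with `x < r ^ a` satisfies `r ^ a ≤ r * x` when `1 ≤ x` -/
lemma exists_least (r x : ℝ) (hr : 1 < r) (hx : 1 ≤ x) : ∃ a : ℕ, x < r ^ a ∧ r ^ a ≤ r * x := by
  classical
  have hex : ∃ a : ℕ, x < r ^ a := pow_unbounded_of_one_lt x hr
  refine ⟨Nat.find hex, Nat.find_spec hex, ?_⟩
  have h0 : Nat.find hex ≠ 0 := by
    intro h
    have := Nat.find_spec hex
    rw [h, pow_zero] at this
    linarith
  obtain ⟨m, hm⟩ := Nat.exists_eq_succ_of_ne_zero h0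
  have h1 : ¬ x < r ^ m := Nat.find_min hex (by omega)
  rw [hm, Nat.succ_eq_add_one, pow_succ, mul_comm]
  exact mul_le_mul_of_nonneg_left (not_lt.1 h1) (by linarith)

end PRIM

/-- PRIM -/
theorem p_PRIM (hTH : S_TH) (hCARD : S_CARD) (hSELF : S_SELF) (hTWO : S_TWO) (hCONJ : S_CONJ) :
    S_PRIM := by
  intro C hC
  obtain ⟨ht1, ht2, -⟩ := hTH
  have ht0 : 0 < th := by linarith
  obtain ⟨L0, hL0, hL⟩ := PRIM.exists_L0 (8 * th ^ 3 * C) (by positivity)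
  obtain ⟨P0, hP0⟩ := pow_unbounded_of_one_lt (((2:ℝ) ^ L0) ^ 2) ht1
  refine ⟨th ^ (P0 + 2), one_le_pow₀ ht1.le, ?_⟩
  intro M hM b hb hlin K V G _ _ _ _ _ _ _ hs ρ hp hfin d hd g hg
  have hM1 : 1 ≤ M := le_trans (one_le_pow₀ ht1.le) hM
  have hbR : (1:ℝ) ≤ b := by exact_mod_cast hb
  have : Nontrivial V := Module.nontrivial_of_finrank_pos (R := K) (by omega)
  obtain ⟨hZn, B, hBn, hZB, hcomm, hself⟩ := hSELF hs ρ hp
  have hcard : (Zs ρ).relIndex B ≤ b ^ 2 := by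
    have := hCARD ρ B hZB hcomm hself
    rwa [hfin] at this
  obtain ⟨hc1, hc2⟩ := hCONJ G hs (Zs ρ) B hZn hBn hZB hcomm
  -- it suffices to find `t` with `t + 2 ≤ d` and `G^(t)` centralising `B / Z`
  have key : ∀ t : ℕ, th ^ (t + 2) ≤ M * b →
      (∀ g ∈ derivedSeries G t, ∀ b ∈ B, g * b * g⁻¹ * b⁻¹ ∈ Zs ρ) → ρ g = 1 := by
    intro t ht hR
    have h1 : th ^ (t + 2) < th ^ d := lt_of_le_of_lt ht hd
    have h2 : t + 2 < d := (pow_lt_pow_iff_right₀ ht1).1 h1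
    have h3 := hTWO ρ B (derivedSeries G t) hself hR
    apply h3
    have h4 : derivedSeries G d ≤ derivedSeries G (t + 2) := derivedSeries_antitone G h2.le
    exact h4 hg
  by_cases hcase : b < 2 ^ L0
  · -- small `b`
    apply key P0
    · calc th ^ (P0 + 2) ≤ M := hM
        _ ≤ M * b := le_mul_of_one_le_right (by linarith) hbR
    · apply hc2 P0
      refine lt_of_le_of_lt ?_ hP0
      have h1 : ((Zs ρ).relIndex B : ℝ) ≤ (b:ℝ) ^ 2 := by exact_mod_cast hcard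
      refine le_trans h1 ?_
      have h2 : (b:ℝ) ≤ 2 ^ L0 := by exact_mod_cast hcase.le
      exact pow_le_pow_left₀ (by linarith) h2 2
  · -- large `b`
    push Not at hcase
    set L := Nat.log 2 b with hLdef
    have hLL : L0 ≤ L := by
      rw [hLdef]
      exact Nat.le_log_of_pow_le (by norm_num) hcase
    have h2L : 2 ^ L ≤ b := Nat.pow_log_le_self 2 (by omega)
    have hbL : b < 2 ^ (L + 1) := Nat.lt_pow_succ_log_self (by norm_num) b
    have hmain : 8 * th ^ 3 * C * ((L:ℝ) + 1) ^ 2 ≤ b := by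
      refine le_trans (hL L hLL) ?_
      exact_mod_cast h2L
    have hth3 : 1 ≤ th ^ 3 * C := by
      have : 1 ≤ th ^ 3 := one_le_pow₀ ht1.le
      nlinarith
    have hℓb : 2 * (L + 1) < b := by
      have h1 : (8:ℝ) * ((L:ℝ) + 1) ^ 2 ≤ b := by
        have h2 : 0 ≤ ((L:ℝ) + 1) ^ 2 := by positivity
        nlinarith
      have h3 : (2:ℝ) * ((L:ℝ) + 1) < b := by
        have h4 : (0:ℝ) ≤ L := Nat.cast_nonneg L
        nlinarith
      exact_mod_cast h3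
    have hrel : (Zs ρ).relIndex B ≤ 2 ^ (2 * (L + 1)) := by
      refine le_trans hcard ?_
      rw [mul_comm, pow_mul]
      exact Nat.pow_le_pow_left hbL.le 2
    have hℓ1 : (1:ℝ) ≤ ((2 * (L + 1) : ℕ) : ℝ) := by
      have : 1 ≤ 2 * (L + 1) := by omega
      exact_mod_cast this
    have hCM : 1 ≤ C * M := by nlinarith
    obtain ⟨a, ha1, ha2⟩ := PRIM.exists_least th (C * M * ((2 * (L + 1) : ℕ) : ℝ)) ht1
      (by nlinarith)
    obtain ⟨s, hs1, hs2⟩ := PRIM.exists_least 2 ((2 * (L + 1) : ℕ) : ℝ) (by norm_num) hℓ1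
    apply key (a + s)
    · have h1 : th ^ s ≤ 2 * ((2 * (L + 1) : ℕ) : ℝ) :=
        le_trans (pow_le_pow_left₀ ht0.le ht2.le s) hs2
      have h2 : th ^ (a + s + 2) = th ^ 2 * (th ^ a * th ^ s) := by ring
      rw [h2]
      have h3 : th ^ a * th ^ s ≤ (th * (C * M * ((2 * (L + 1) : ℕ) : ℝ)))
          * (2 * ((2 * (L + 1) : ℕ) : ℝ)) :=
        mul_le_mul ha2 h1 (by positivity) (by positivity)
      calc th ^ 2 * (th ^ a * th ^ s) ≤ th ^ 2 * ((th * (C * M * ((2 * (L + 1) : ℕ) : ℝ)))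
          * (2 * ((2 * (L + 1) : ℕ) : ℝ))) := mul_le_mul_of_nonneg_left h3 (by positivity)
        _ = M * (8 * th ^ 3 * C * ((L:ℝ) + 1) ^ 2) := by push_cast; ring
        _ ≤ M * b := mul_le_mul_of_nonneg_left hmain (by linarith)
    · exact hc1 (C * M) (by linarith) (2 * (L + 1)) (fun r hr => hlin r (by omega)) hrel a s ha1
        (by exact_mod_cast hs1.le)

end Pool.Agent.Work.MP_403fb3_h27
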