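import Pool.Agent.Work.MP_403fb3_h27.Interface

/-!
# Even permutation matrices in the projective special linear group (block PSL)
-/

set_option autoImplicit false

namespace Pool.Agent.Work.MP_403fb3_h27

open Matrix

namespace PSL

variable {F : Type} [Field F] {n : ℕ}

/-- the permutation matrices as a homomorphism of monoids -/
def hom (F : Type) [Field F] (n : ℕ) : Equiv.Perm (Fin n) →* Matrix (Fin n) (Fin n) F where
  toFun σ := Matrix.of fun i j => if i = σ j then 1 else 0
  map_one' := by
    ext i j
    simp [Matrix.one_apply]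
  map_mul' σ τ := by
    ext i j
    simp only [Matrix.mul_apply, Matrix.of_apply, Equiv.Perm.mul_apply]
    rw [Finset.sum_eq_single (τ j)]
    · simp
    · intro b _ hb
      simp [hb]
    · intro h
      exact absurd (Finset.mem_univ _) h

theorem hom_apply (σ : Equiv.Perm (Fin n)) (i j : Fin n) :
    hom F n σ i j = if i = σ j then 1 else 0 := rfl

theorem det_hom (σ : Equiv.Perm (Fin n)) :
    (hom F n σ).det = ((Equiv.Perm.sign σ : ℤˣ) : ℤ) := by
  have h : hom F n σ = (σ⁻¹).permMatrix F := by
    ext i j
    rw [hom_apply]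
    simp only [Equiv.Perm.permMatrix, PEquiv.toMatrix_apply, Equiv.toPEquiv_apply,
      Option.mem_def, Option.some.injEq]
    congr 1
    rw [eq_iff_iff]
    constructor
    · rintro rfl
      simp
    · rintro rfl
      simp
  rw [h, Matrix.det_permutation, Equiv.Perm.sign_inv]

theorem hom_scalar (σ : Equiv.Perm (Fin n)) (c : F) (h : scalar (Fin n) c = hom F n σ) :
    σ = 1 := by
  ext j
  have h1 := congrFun (congrFun h (σ j)) j
  rw [hom_apply, if_pos rfl] at h1
  by_contra hne
  have h2 : σ j ≠ j := fun e => hne (by rw [e]; rfl)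
  rw [scalar_apply, diagonal_apply_ne _ h2] at h1
  exact one_ne_zero h1.symm

/-- even permutation matrices in the special linear group -/
def homSL (F : Type) [Field F] (n : ℕ) : alternatingGroup (Fin n) →* SpecialLinearGroup (Fin n) F where
  toFun σ := ⟨hom F n σ.1, by
    rw [det_hom, Equiv.Perm.mem_alternatingGroup.mp σ.2]
    simp⟩
  map_one' := by
    apply Subtype.ext
    exact map_one (hom F n)
  map_mul' σ τ := by
    apply Subtype.ext
    exact map_mul (hom F n) σ.1 τ.1

theorem homSL_val (σ : alternatingGroup (Fin n)) :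
    ((homSL F n σ : SpecialLinearGroup (Fin n) F) : Matrix (Fin n) (Fin n) F) = hom F n σ.1 := rfl

end PSL

theorem p_PSL : S_PSL := by
  intro F _ _ n
  refine ⟨SpecialLinearGroup.toGL, QuotientGroup.mk' _,
    (QuotientGroup.mk' _).comp (PSL.homSL F n), SpecialLinearGroup.toGL_injective,
    QuotientGroup.mk'_surjective _, ?_, ?_⟩
  · rw [QuotientGroup.ker_mk']
    exact Group.isSolvable_of_comm fun a b => by
      apply Subtype.ext
      exact (Subgroup.mem_center_iff.mp b.2 a.1)
  · rw [injective_iff_map_eq_one]
    intro σ hσ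
    have h1 : PSL.homSL F n σ ∈ Subgroup.center (SpecialLinearGroup (Fin n) F) := by
      rw [← QuotientGroup.ker_mk' (Subgroup.center (SpecialLinearGroup (Fin n) F))]
      exact hσ
    obtain ⟨r, -, hr⟩ := Matrix.SpecialLinearGroup.mem_center_iff.mp h1
    rw [PSL.homSL_val] at hr
    exact Subtype.ext (PSL.hom_scalar σ.1 r hr)

end Pool.Agent.Work.MP_403fb3_h27
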