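import Pool.Agent.Work.MP_403fb3_h27.Interface

set_option autoImplicit false

namespace Pool.Agent.Work.MP_403fb3_h27

/-- TH -/
theorem p_TH : S_TH := by
  have h5 : th ^ 5 = 9 := by
    unfold th
    rw [← Real.rpow_natCast, ← Real.rpow_mul (by norm_num)]
    norm_num
  have h0 : 0 ≤ th := by unfold th; positivity
  refine ⟨?_, ?_, h5⟩
  · by_contra h
    push Not at h
    have := pow_le_pow_left₀ h0 h 5
    rw [h5] at this
    norm_num at this
  · by_contra h
    push Not at h
    have := pow_le_pow_left₀ (by norm_num : (0:ℝ) ≤ 2) h 5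
    rw [h5] at this
    norm_num at this

end Pool.Agent.Work.MP_403fb3_h27
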