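import Pool.Agent.Work.MP_403fb3_h27.Interface

namespace Pool.Agent.Work.MP_403fb3_h27

open Subgroup
open scoped commutatorElement

theorem p_TWO : S_TWO := by
  intro K V G _ _ _ _ ρ B R hself hR
  have hinv : ∀ x : G, ρ x * ρ x⁻¹ = 1 := fun x => by rw [← map_mul, mul_inv_cancel, map_one]
  have hinv' : ∀ x : G, ρ x⁻¹ * ρ x = 1 := fun x => by rw [← map_mul, inv_mul_cancel, map_one]
  -- conjugation by `g ∈ R` multiplies `ρ b` by a scalar
  have hsc : ∀ g ∈ R, ∀ b ∈ B, ∃ z : K, z ≠ 0 ∧ ρ (g * b) = z • ρ (b * g) := by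
    intro g hg b hb
    obtain ⟨z, hz, h⟩ := hR g hg b hb
    refine ⟨z, hz, ?_⟩
    have h1 : g * b = (g * b * g⁻¹ * b⁻¹) * (b * g) := by group
    rw [h1, map_mul, h, smul_mul_assoc, one_mul]
  -- the centraliser of `ρ B`
  let C : Subgroup G :=
    { carrier := {x | ∀ b ∈ B, ρ (x * b) = ρ (b * x)}
      mul_mem' := by
        intro x y hx hy b hb
        have h1 := hx b hb
        have h2 := hy b hb
        simp only [map_mul] at h1 h2 ⊢
        rw [mul_assoc, h2, ← mul_assoc, h1, mul_assoc]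
      one_mem' := by intro b hb; simp
      inv_mem' := by
        intro x hx b hb
        have h1 := hx b hb
        simp only [map_mul] at h1 ⊢
        calc ρ x⁻¹ * ρ b = ρ x⁻¹ * ρ b * (ρ x * ρ x⁻¹) := by rw [hinv, mul_one]
          _ = ρ x⁻¹ * (ρ b * ρ x) * ρ x⁻¹ := by simp only [mul_assoc]
          _ = ρ x⁻¹ * (ρ x * ρ b) * ρ x⁻¹ := by rw [h1]
          _ = (ρ x⁻¹ * ρ x) * ρ b * ρ x⁻¹ := by simp only [mul_assoc]
          _ = ρ b * ρ x⁻¹ := by rw [hinv', one_mul] }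
  have hC : C ≤ Zs ρ := fun x hx => hself x hx
  have hRR : ⁅R, R⁆ ≤ C := by
    rw [Subgroup.commutator_le]
    intro g hg h hh b hb
    obtain ⟨z, hz, e1⟩ := hsc g hg b hb
    obtain ⟨w, hw, e2⟩ := hsc h hh b hb
    simp only [map_mul] at e1 e2
    -- `ρ(g h) ρ b = z w ρ b ρ(g h)`
    have f1 : ρ (g * h) * ρ b = (z * w) • (ρ b * ρ (g * h)) := by
      rw [map_mul, mul_assoc, e2, mul_smul_comm, ← mul_assoc, e1, smul_mul_assoc, smul_smul,
        mul_comm w z, mul_assoc]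
    have f2 : ρ (h * g) * ρ b = (z * w) • (ρ b * ρ (h * g)) := by
      rw [map_mul, mul_assoc, e1, mul_smul_comm, ← mul_assoc, e2, smul_mul_assoc, smul_smul,
        mul_assoc]
    -- `⁅g,h⁆ (h g) = g h`
    have f3 : ρ ⁅g, h⁆ * ρ (h * g) = ρ (g * h) := by
      rw [← map_mul]; congr 1; rw [commutatorElement_def]; group
    have hzw : z * w ≠ 0 := mul_ne_zero hz hw
    have f4 : (z * w) • (ρ ⁅g, h⁆ * ρ b * ρ (h * g)) = (z * w) • (ρ b * ρ ⁅g, h⁆ * ρ (h * g)) := by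
      calc (z * w) • (ρ ⁅g, h⁆ * ρ b * ρ (h * g)) = ρ ⁅g, h⁆ * ((z * w) • (ρ b * ρ (h * g))) := by
            rw [mul_smul_comm, mul_assoc]
        _ = ρ ⁅g, h⁆ * (ρ (h * g) * ρ b) := by rw [f2]
        _ = ρ (g * h) * ρ b := by rw [← mul_assoc, f3]
        _ = (z * w) • (ρ b * ρ (g * h)) := f1
        _ = (z * w) • (ρ b * ρ ⁅g, h⁆ * ρ (h * g)) := by rw [mul_assoc (ρ b), f3]
    have f5 : ρ ⁅g, h⁆ * ρ b * ρ (h * g) = ρ b * ρ ⁅g, h⁆ * ρ (h * g) :=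
      smul_right_injective _ hzw f4
    have f6 : ρ ⁅g, h⁆ * ρ b * (ρ (h * g) * ρ (h * g)⁻¹) =
        ρ b * ρ ⁅g, h⁆ * (ρ (h * g) * ρ (h * g)⁻¹) := by
      rw [← mul_assoc, f5, mul_assoc]
    rw [hinv, mul_one, mul_one] at f6
    rw [map_mul, map_mul, f6]
  -- scalars commute
  have hker : ⁅⁅R, R⁆, ⁅R, R⁆⁆ ≤ ρ.ker := by
    rw [Subgroup.commutator_le]
    intro g hg h hh
    obtain ⟨z, hz, e1⟩ := hC (hRR hg)
    obtain ⟨w, hw, e2⟩ := hC (hRR hh)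
    rw [MonoidHom.mem_ker]
    have f3 : ρ ⁅g, h⁆ * ρ (h * g) = ρ (g * h) := by
      rw [← map_mul]; congr 1; rw [commutatorElement_def]; group
    have f4 : ρ (h * g) = ρ (g * h) := by
      rw [map_mul, map_mul, e1, e2, smul_mul_smul_comm, smul_mul_smul_comm, mul_comm w z]
    calc ρ ⁅g, h⁆ = ρ ⁅g, h⁆ * (ρ (h * g) * ρ (h * g)⁻¹) := by rw [hinv, mul_one]
      _ = ρ (g * h) * ρ (h * g)⁻¹ := by rw [← mul_assoc, f3]
      _ = 1 := by rw [← f4, hinv]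
  intro g hg
  exact (MonoidHom.mem_ker).mp (hker hg)

end Pool.Agent.Work.MP_403fb3_h27
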