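import Pool.Agent.Work.MP_403fb3_h27.Interface

/-!
# Block UNIF: at most `2 ^ s` pieces with labels `≤ a`
-/

set_option autoImplicit false

namespace Pool.Agent.Work.MP_403fb3_h27

theorem p_UNIF : S_UNIF := by
  intro L a s
  induction s generalizing L with
  | zero =>
    intro h1 h2
    match L, h1, h2 with
    | [], _, _ => exact Mer.nil _
    | [x], h1, _ => exact Mer.single x _ (h1 x (List.mem_singleton.2 rfl))
    | x :: y :: L, _, h2 =>
      simp only [List.length_cons, pow_zero] at h2
      omega
  | succ s ih =>
    intro h1 h2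
    have e1 : L.take (2 ^ s) ++ L.drop (2 ^ s) = L := List.take_append_drop _ _
    have h3 : Mer (L.take (2 ^ s) ++ L.drop (2 ^ s)) (a + s + 1) := by
      refine Mer.app _ _ _ (ih _ (fun x hx => h1 x (List.mem_of_mem_take hx)) ?_)
        (ih _ (fun x hx => h1 x (List.mem_of_mem_drop hx)) ?_)
      · exact List.length_take_le _ _
      · rw [List.length_drop]
        have h4 : 2 ^ (s + 1) = 2 ^ s + 2 ^ s := by ring
        omega
    rw [e1] at h3
    exact h3

end Pool.Agent.Work.MP_403fb3_h27
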