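import Pool.Agent.Work.MP_403fb3_h27.Interface

namespace Pool.Agent.Work.MP_403fb3_h27

open Subgroup

theorem p_UP (hMAIN : S_MAIN) : S_UP := by
  obtain ⟨M, hM, hB⟩ := hMAIN
  refine ⟨M, hM, ?_⟩
  intro K Γ G _ _ _ _ n ρ hρ π hπ hker S hS d hd
  by_contra hcon
  push Not at hcon
  apply hd
  -- the preimage of `S`
  set T : Subgroup Γ := S.comap π with hT
  let ψ : T →* S := (π.comp T.subtype).codRestrict S (fun x => x.2)
  have hψ : Function.Surjective ψ := by
    rintro ⟨s, hs⟩
    obtain ⟨g, rfl⟩ := hπ s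
    exact ⟨⟨g, hs⟩, rfl⟩
  have hTs : Group.IsSolvable T := by
    let ι : π.ker →* T := Subgroup.inclusion (by
      intro x hx
      rw [hT, Subgroup.mem_comap, (MonoidHom.mem_ker).mp hx]
      exact S.one_mem)
    refine Group.isSolvable_of_ker_le_range ι ψ ?_
    intro x hx
    have hx' : π x = 1 := congrArg Subtype.val ((MonoidHom.mem_ker).mp hx)
    exact ⟨⟨x, (MonoidHom.mem_ker).mpr hx'⟩, rfl⟩
  let σ : T →* Module.End K (Fin n → K) :=
    ((Matrix.toLinAlgEquiv' : Matrix (Fin n) (Fin n) K ≃ₐ[K] _).toAlgHom.toMonoidHom'.comp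
      (Units.coeHom _)).comp (ρ.comp T.subtype)
  have hσ : Function.Injective σ := by
    intro x y hxy
    apply Subtype.ext
    apply hρ
    apply Units.ext
    exact (Matrix.toLinAlgEquiv' : Matrix (Fin n) (Fin n) K ≃ₐ[K] _).injective hxy
  have hfr : Module.finrank K (Fin n → K) = n := by simp
  have hall := hB n K (Fin n → K) T hTs σ hfr d hcon
  have hbot : derivedSeries T d = ⊥ := by
    rw [eq_bot_iff]
    intro g hg
    rw [Subgroup.mem_bot]
    apply hσ
    rw [hall g hg, map_one]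
  rw [← map_derivedSeries_eq hψ d, hbot, Subgroup.map_bot]

end Pool.Agent.Work.MP_403fb3_h27
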