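import Pool.Agent.Work.MP_403fb3_h27.Interface

/-!
# Block WT
-/

namespace Pool.Agent.Work.MP_403fb3_h27

namespace WT

/-- superadditivity of `x ^ κ` over a list -/
theorem sum_rpow_le {κ M : ℝ} (hκ : 1 ≤ κ) (hM : 0 ≤ M) (ms : List ℕ) :
    (ms.map (fun m : ℕ => (M * (m : ℝ)) ^ κ)).sum ≤ (M * ((ms.sum : ℕ) : ℝ)) ^ κ := by
  induction ms with
  | nil =>
    simp only [List.map_nil, List.sum_nil, Nat.cast_zero, mul_zero]
    exact Real.rpow_nonneg le_rfl _
  | cons a l ih =>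
    rw [List.map_cons, List.sum_cons, List.sum_cons]
    have h1 : M * (((a + l.sum : ℕ)) : ℝ) = M * (a : ℝ) + M * ((l.sum : ℕ) : ℝ) := by
      push_cast
      ring
    rw [h1]
    have h2 : (0 : ℝ) ≤ M * (a : ℝ) := mul_nonneg hM (Nat.cast_nonneg _)
    have h3 : (0 : ℝ) ≤ M * ((l.sum : ℕ) : ℝ) := mul_nonneg hM (Nat.cast_nonneg _)
    have h4 := Real.add_rpow_le_rpow_add h2 h3 hκ
    linarith

end WT

theorem p_WT (hT : S_TH) : S_WT := by
  intro M hM f hf1 hf2 ms hms d hd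
  obtain ⟨ht1, ht2, -⟩ := hT
  have ht0 : (0 : ℝ) < th := by linarith
  have hM0 : (0 : ℝ) ≤ M := by linarith
  have hl : 0 < Real.log th := Real.log_pos ht1
  have hl2 : 0 < Real.log 2 := Real.log_pos (by norm_num)
  set κ : ℝ := Real.log 2 / Real.log th with hκ
  have hκ1 : 1 ≤ κ := by
    rw [hκ, le_div_iff₀ hl, one_mul]
    exact Real.log_le_log ht0 ht2.le
  have hκ0 : 0 ≤ κ := by linarith
  have h2 : th ^ κ = 2 := by
    rw [Real.rpow_def_of_pos ht0, hκ, mul_div_cancel₀ _ hl.ne', Real.exp_log (by norm_num)]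
  have hpow : ∀ a : ℕ, (th ^ a) ^ κ = (2 : ℝ) ^ a := by
    intro a
    rw [← Real.rpow_natCast th a, ← Real.rpow_mul ht0.le, mul_comm, Real.rpow_mul ht0.le, h2,
      Real.rpow_natCast]
  -- one term
  have hone : ∀ m ∈ ms, (2 : ℝ) ^ (f m + 1) ≤ 4 * (M * (m : ℝ)) ^ κ := by
    intro m hm
    have hm1 : (1 : ℝ) ≤ m := by exact_mod_cast hms m hm
    have hMm : 1 ≤ M * m := by nlinarith
    have hf0 : 1 ≤ f m := by
      by_contra hc
      have h0 : f m = 0 := by omega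
      have := hf1 m
      rw [h0, pow_zero] at this
      linarith
    obtain ⟨a, ha⟩ : ∃ a, f m = a + 1 := ⟨f m - 1, by omega⟩
    have hle : th ^ a ≤ M * m := by
      by_contra hc
      push Not at hc
      have := hf2 m a hc
      omega
    have h3 : (th ^ a) ^ κ ≤ (M * (m : ℝ)) ^ κ :=
      Real.rpow_le_rpow (pow_nonneg ht0.le _) hle hκ0
    rw [hpow] at h3
    rw [ha, pow_succ, pow_succ]
    linarith
  have hsum : (((ms.map f).map (fun a => 2 ^ (a + 1))).sum : ℝ) ≤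
      4 * (M * ((ms.sum : ℕ) : ℝ)) ^ κ := by
    have h3 : (((ms.map f).map (fun a => (2 : ℝ) ^ (a + 1))).sum : ℝ) ≤
        (ms.map (fun m : ℕ => 4 * (M * (m : ℝ)) ^ κ)).sum := by
      rw [List.map_map]
      exact List.sum_le_sum (fun m hm => hone m hm)
    have h4 : (ms.map (fun m : ℕ => 4 * (M * (m : ℝ)) ^ κ)).sum =
        4 * (ms.map (fun m : ℕ => (M * (m : ℝ)) ^ κ)).sum := by
      rw [List.sum_map_mul_left]
    rw [h4] at h3
    have h5 := WT.sum_rpow_le hκ1 hM0 ms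
    linarith
  have hfin : 4 * (M * ((ms.sum : ℕ) : ℝ)) ^ κ ≤ (2 : ℝ) ^ d := by
    have h3 : (0 : ℝ) ≤ M * ((ms.sum : ℕ) : ℝ) := mul_nonneg hM0 (Nat.cast_nonneg _)
    have h4 : (th ^ 2 * (M * ((ms.sum : ℕ) : ℝ))) ^ κ ≤ (th ^ d) ^ κ := by
      refine Real.rpow_le_rpow (mul_nonneg (pow_nonneg ht0.le _) h3) ?_ hκ0
      rw [← mul_assoc]
      exact hd.le
    rw [Real.mul_rpow (pow_nonneg ht0.le _) h3, hpow, hpow] at h4
    norm_num at h4 ⊢
    exact h4
  have hcast : (((((ms.map f).map (fun a => 2 ^ (a + 1))).sum : ℕ)) : ℝ) =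
      ((ms.map f).map (fun a => (2 : ℝ) ^ (a + 1))).sum := by
    rw [Nat.cast_list_sum, List.map_map]
    congr 1
    refine List.map_congr_left (fun a _ => ?_)
    simp
  have : (((((ms.map f).map (fun a => 2 ^ (a + 1))).sum : ℕ)) : ℝ) ≤ ((2 ^ d : ℕ) : ℝ) := by
    rw [hcast]
    push_cast
    exact hsum.trans hfin
  exact_mod_cast this

end Pool.Agent.Work.MP_403fb3_h27
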