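import Pool.Agent.Work.MP_403fb3_h27.Asm
import Pool.Agent.Work.MP_403fb3_h27.B_TH
import Pool.Agent.Work.MP_403fb3_h27.B_FJ
import Pool.Agent.Work.MP_403fb3_h27.B_PERM
import Pool.Agent.Work.MP_403fb3_h27.B_COMM
import Pool.Agent.Work.MP_403fb3_h27.B_CHAIN
import Pool.Agent.Work.MP_403fb3_h27.B_KRAFT
import Pool.Agent.Work.MP_403fb3_h27.B_UNIF
import Pool.Agent.Work.MP_403fb3_h27.B_EIG
import Pool.Agent.Work.MP_403fb3_h27.B_CARD
import Pool.Agent.Work.MP_403fb3_h27.B_SELF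
import Pool.Agent.Work.MP_403fb3_h27.B_TWO
import Pool.Agent.Work.MP_403fb3_h27.B_AB
import Pool.Agent.Work.MP_403fb3_h27.B_CONJ
import Pool.Agent.Work.MP_403fb3_h27.B_PRIM
import Pool.Agent.Work.MP_403fb3_h27.B_EIGV
import Pool.Agent.Work.MP_403fb3_h27.B_IND
import Pool.Agent.Work.MP_403fb3_h27.B_IRR
import Pool.Agent.Work.MP_403fb3_h27.B_JH
import Pool.Agent.Work.MP_403fb3_h27.B_WT
import Pool.Agent.Work.MP_403fb3_h27.B_GEN
import Pool.Agent.Work.MP_403fb3_h27.B_BASE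
import Pool.Agent.Work.MP_403fb3_h27.B_MAIN
import Pool.Agent.Work.MP_403fb3_h27.B_UP
import Pool.Agent.Work.MP_403fb3_h27.B_PSL
import Pool.Agent.Work.MP_403fb3_lin.PM
import Pool.Agent.Work.MP_403fb3_lin.PSP
import Pool.Agent.Work.MP_403fb3_lin.SU
import Pool.Agent.Work.MP_403fb3_lin.OM

/-!
# THEOREM DL: all blocks together
-/

namespace Pool.Agent.Work.MP_403fb3_h27

theorem a_FJ : S_FJ := p_FJ p_TH

theorem a_PERM : S_PERM := p_PERM a_FJ

theorem a_CHAIN : S_CHAIN := p_CHAIN p_COMM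

theorem a_AB : S_AB := p_AB a_CHAIN p_UNIF

theorem a_CONJ : S_CONJ := p_CONJ a_AB a_PERM

theorem a_PRIM : S_PRIM := p_PRIM p_TH (p_CARD p_EIG) p_SELF p_TWO a_CONJ

theorem a_IND : S_IND := p_IND p_EIGV p_EIG

theorem a_IRR : S_IRR := p_IRR p_TH a_PERM a_IND

theorem a_GEN : S_GEN := p_GEN p_TH p_JH (p_WT p_TH) p_KRAFT a_CHAIN

theorem a_MAIN : S_MAIN := p_MAIN p_TH a_PRIM a_IRR a_GEN p_BASE

theorem a_UP : S_UP := p_UP a_MAIN

theorem main_general (R : ℕ) : ∃ c, General R c := general p_TH a_FJ a_UP R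

theorem main_families : ∃ c : ℕ, ∀ (F : Type) [Field F] [Finite F] (n : ℕ),
      UpTo c (Matrix.ProjectiveSpecialLinearGroup (Fin n) F) ∧
      UpTo c (↥(Matrix.symplecticGroup (Fin n) F) ⧸
        Subgroup.center ↥(Matrix.symplecticGroup (Fin n) F)) ∧
      (∀ [StarRing F], UpTo c (↥(Matrix.specialUnitaryGroup (Fin n) F) ⧸
        Subgroup.center ↥(Matrix.specialUnitaryGroup (Fin n) F))) ∧
      UpTo c (↥(commutator ↥(Matrix.orthogonalGroup (Fin n) F)) ⧸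
        Subgroup.center ↥(commutator ↥(Matrix.orthogonalGroup (Fin n) F))) :=
  families p_TH a_FJ a_UP p_PSL Pool.Agent.Work.MP_403fb3_lin.p_PSP
    Pool.Agent.Work.MP_403fb3_lin.p_PM Pool.Agent.Work.MP_403fb3_lin.p_SU
    Pool.Agent.Work.MP_403fb3_lin.p_OM

end Pool.Agent.Work.MP_403fb3_h27
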