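import Pool.Agent.Work.MP_403fb3_h27.Interface
import Pool.Agent.Work.MP_403fb3_lin.Interface

/-!
# Assembly
-/

namespace Pool.Agent.Work.MP_403fb3_h27

open Subgroup Pool.Agent.Work.MP_403fb3_al_helper9

/-- If `G` has a soluble subgroup of derived length `d`, then `G` has 2-generator subgroups of every
derived length `e ≤ d - c`, and `var(G)` contains 2-generator groups of these derived lengths. -/
def UpTo (c : ℕ) (G : Type) [Group G] : Prop :=
  ∀ d : ℕ, (∃ S : Subgroup G, HasLength S d) → ∀ e : ℕ, e + c ≤ d →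
    (∃ x y : G, HasLength (Subgroup.closure ({x, y} : Set G)) e) ∧ Var2 G e

/-- The general theorem. -/
def General (R c : ℕ) : Prop :=
  ∀ (K Γ G : Type) [Field K] [Group Γ] [Finite Γ] [Group G] (n m : ℕ), n ≤ R * (m + 1) →
    ∀ ρ : Γ →* Matrix.GeneralLinearGroup (Fin n) K, Function.Injective ρ →
    ∀ π : Γ →* G, Function.Surjective π → Group.IsSolvable π.ker →
    ∀ f : alternatingGroup (Fin m) →* G, Function.Injective f → UpTo c G

theorem pair_of_am {G : Type} [Group G] (m e : ℕ) (f : alternatingGroup (Fin m) →* G)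
    (hf : Function.Injective f) (he : am e ≤ m) :
    ∃ x y : G, HasLength (Subgroup.closure ({x, y} : Set G)) (e + 1) := by
  obtain ⟨a, b, hab⟩ := alt_exists he
  exact ⟨f a, f b, (hab.map f hf).closure⟩

theorem upTo_of_pairs {c : ℕ} {G : Type} [Group G]
    (h : ∀ d : ℕ, (∃ S : Subgroup G, HasLength S d) → ∀ e : ℕ, e + 1 + c ≤ d →
      ∃ x y : G, HasLength (Subgroup.closure ({x, y} : Set G)) (e + 1)) : UpTo c G := by
  intro d hd e he
  have hp : ∃ x y : G, HasLength (Subgroup.closure ({x, y} : Set G)) e := by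
    rcases Nat.eq_zero_or_pos e with h0 | h0
    · subst h0
      exact ⟨1, 1, closure_one_one G, fun m hm => absurd hm (Nat.not_lt_zero m)⟩
    · obtain ⟨e', rfl⟩ : ∃ e', e = e' + 1 := ⟨e - 1, by omega⟩
      exact h d hd e' he
  obtain ⟨x, y, hxy⟩ := hp
  exact ⟨⟨x, y, hxy⟩, variety_of_pair x y hxy⟩

theorem UpTo.mono {c c' : ℕ} {G : Type} [Group G] (h : UpTo c G) (hc : c ≤ c') : UpTo c' G :=
  fun d hd e he => h d hd e (by omega)

theorem general (hTH : S_TH) (hFJ : S_FJ) (hUP : S_UP) (R : ℕ) : ∃ c, General R c := by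
  obtain ⟨h1, h2, h5⟩ := hTH
  obtain ⟨M, hM, hUP⟩ := hUP
  obtain ⟨c, hc⟩ := pow_unbounded_of_one_lt (8 * M * R) h1
  refine ⟨c, ?_⟩
  intro K Γ G _ _ _ _ n m hnm ρ hρ π hπ hker f hf
  refine upTo_of_pairs ?_
  rintro d ⟨S, hS1, hS2⟩ e hed
  have hSs : Group.IsSolvable S := (Group.isSolvable_def S).mpr ⟨d, hS1⟩
  have hne : derivedSeries S (d - 1) ≠ ⊥ := hS2 (d - 1) (by omega)
  have hup := hUP K Γ G n ρ hρ π hπ hker S hSs (d - 1) hne
  refine pair_of_am m e f hf ?_
  have ham := hFJ.2 e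
  have hM0 : (0 : ℝ) < M := by linarith
  have hth0 : (0 : ℝ) < th := by linarith
  have h3 : th ^ (e + c) ≤ th ^ (d - 1) := pow_le_pow_right₀ h1.le (by omega)
  have h4 : (n : ℝ) ≤ R * (m + 1) := by exact_mod_cast hnm
  have h6 : th ^ (e + c) ≤ M * (R * (m + 1)) :=
    h3.trans (hup.trans (mul_le_mul_of_nonneg_left h4 hM0.le))
  rw [pow_add] at h6
  have hR : (0 : ℝ) < R := by
    rcases Nat.eq_zero_or_pos R with h | h
    · exfalso
      rw [h] at h6
      have h7 : 0 < th ^ e * th ^ c := by positivity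
      simp at h6
      linarith
    · exact_mod_cast h
  have h8 : 8 * M * R * th ^ e ≤ M * R * (m + 1) := by
    calc 8 * M * R * th ^ e ≤ th ^ c * th ^ e := by
          exact mul_le_mul_of_nonneg_right hc.le (by positivity)
      _ = th ^ e * th ^ c := mul_comm _ _
      _ ≤ M * (R * (m + 1)) := h6
      _ = M * R * (m + 1) := by ring
  have hMR : 0 < M * R := mul_pos hM0 hR
  have h9 : 8 * th ^ e ≤ m + 1 := by
    have : (M * R) * (8 * th ^ e) ≤ (M * R) * (m + 1) := by linarith
    exact le_of_mul_le_mul_left this hMR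
  have h11 : 1 ≤ th ^ e := one_le_pow₀ h1.le
  have h10 : (am e : ℝ) ≤ m := by linarith
  exact_mod_cast h10

theorem center_solv (Γ : Type) [Group Γ] :
    Group.IsSolvable (QuotientGroup.mk' (Subgroup.center Γ)).ker := by
  rw [QuotientGroup.ker_mk']
  exact Group.isSolvable_of_comm fun a b => by
    apply Subtype.ext
    exact (Subgroup.mem_center_iff.mp b.2 a.1)

/-- matrices over another index set -/
def reidx {K ι : Type} [Field K] [Fintype ι] [DecidableEq ι] {n : ℕ} (e : ι ≃ Fin n) :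
    Matrix ι ι K →* Matrix (Fin n) (Fin n) K where
  toFun := Matrix.reindex e e
  map_one' := by simp
  map_mul' A B := by simp [Matrix.submatrix_mul_equiv]

theorem reidx_inj {K ι : Type} [Field K] [Fintype ι] [DecidableEq ι] {n : ℕ} (e : ι ≃ Fin n) :
    Function.Injective (reidx (K := K) e) := fun _ _ h => (Matrix.reindex e e).injective h

/-- A group with an injective homomorphism to matrices has one to invertible matrices. -/
theorem toGL {Γ K ι : Type} [Group Γ] [Field K] [Fintype ι] [DecidableEq ι] {n : ℕ}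
    (e : ι ≃ Fin n) (j : Γ →* Matrix ι ι K) (hj : Function.Injective j) :
    ∃ ρ : Γ →* Matrix.GeneralLinearGroup (Fin n) K, Function.Injective ρ := by
  refine ⟨((reidx e).comp j).toHomUnits, ?_⟩
  intro x y h
  apply hj
  apply reidx_inj e
  exact congrArg Units.val h

theorem families (hTH : S_TH) (hFJ : S_FJ) (hUP : S_UP) (hPSL : S_PSL)
    (hPSP : Pool.Agent.Work.MP_403fb3_lin.S_PSP) (hPM : Pool.Agent.Work.MP_403fb3_lin.S_PM)
    (hSU : Pool.Agent.Work.MP_403fb3_lin.S_SU) (hOM : Pool.Agent.Work.MP_403fb3_lin.S_OM) :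
    ∃ c : ℕ, ∀ (F : Type) [Field F] [Finite F] (n : ℕ),
      UpTo c (Matrix.ProjectiveSpecialLinearGroup (Fin n) F) ∧
      UpTo c (↥(Matrix.symplecticGroup (Fin n) F) ⧸
        Subgroup.center ↥(Matrix.symplecticGroup (Fin n) F)) ∧
      (∀ [StarRing F], UpTo c (↥(Matrix.specialUnitaryGroup (Fin n) F) ⧸
        Subgroup.center ↥(Matrix.specialUnitaryGroup (Fin n) F))) ∧
      UpTo c (↥(commutator ↥(Matrix.orthogonalGroup (Fin n) F)) ⧸
        Subgroup.center ↥(commutator ↥(Matrix.orthogonalGroup (Fin n) F))) := by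
  obtain ⟨c, hc⟩ := general hTH hFJ hUP 5
  refine ⟨c, ?_⟩
  intro F _ _ n
  have htriv : ∀ (G : Type) [Group G], ∃ f : alternatingGroup (Fin 0) →* G,
      Function.Injective f := fun G _ => ⟨1, fun x y _ => Subsingleton.elim x y⟩
  refine ⟨?_, ?_, ?_, ?_⟩
  · obtain ⟨ρ, π, f, hρ, hπ, hk, hf⟩ := hPSL F n
    exact hc F _ _ n n (by omega) ρ hρ π hπ hk f hf
  · obtain ⟨f, hf⟩ := hPSP F n
    obtain ⟨g, -, hg⟩ := hPM F n
    let e : Fin n ⊕ Fin n ≃ Fin (n + n) := finSumFinEquiv
    have hfin : Finite ↥(Matrix.symplecticGroup (Fin n) F) :=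
      Finite.of_injective Subtype.val Subtype.val_injective
    obtain ⟨ρ, hρ⟩ := toGL e (Matrix.symplecticGroup (Fin n) F).subtype Subtype.val_injective
    refine hc F _ _ (n + n) n (by omega) ρ hρ (QuotientGroup.mk' _)
      (QuotientGroup.mk'_surjective _) (center_solv _)
      (f.comp (g.comp (alternatingGroup (Fin n)).subtype)) ?_
    rw [injective_iff_map_eq_one]
    intro σ hσ
    obtain ⟨z, hz⟩ := hf _ hσ
    exact Subtype.ext (hg σ.1 z hz)
  · intro _
    have hfin : Finite ↥(Matrix.specialUnitaryGroup (Fin n) F) :=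
      Finite.of_injective Subtype.val Subtype.val_injective
    obtain ⟨ρ, hρ⟩ := toGL (Equiv.refl (Fin n)) (Matrix.specialUnitaryGroup (Fin n) F).subtype
      Subtype.val_injective
    rcases Nat.lt_or_ge n 4 with h4 | h4
    · obtain ⟨f, hf⟩ := htriv (↥(Matrix.specialUnitaryGroup (Fin n) F) ⧸
        Subgroup.center ↥(Matrix.specialUnitaryGroup (Fin n) F))
      exact hc F _ _ n 0 (by omega) ρ hρ (QuotientGroup.mk' _)
        (QuotientGroup.mk'_surjective _) (center_solv _) f hf
    · obtain ⟨f, hf⟩ := hSU F n h4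
      exact hc F _ _ n n (by omega) ρ hρ (QuotientGroup.mk' _)
        (QuotientGroup.mk'_surjective _) (center_solv _) f hf
  · have hfin : Finite ↥(Matrix.orthogonalGroup (Fin n) F) :=
      Finite.of_injective Subtype.val Subtype.val_injective
    obtain ⟨ρ, hρ⟩ := toGL (Equiv.refl (Fin n))
      ((Matrix.orthogonalGroup (Fin n) F).subtype.comp
        (commutator ↥(Matrix.orthogonalGroup (Fin n) F)).subtype)
      (Subtype.val_injective.comp Subtype.val_injective)
    rcases Nat.lt_or_ge n 5 with h4 | h4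
    · obtain ⟨f, hf⟩ := htriv (↥(commutator ↥(Matrix.orthogonalGroup (Fin n) F)) ⧸
        Subgroup.center ↥(commutator ↥(Matrix.orthogonalGroup (Fin n) F)))
      exact hc F _ _ n 0 (by omega) ρ hρ (QuotientGroup.mk' _)
        (QuotientGroup.mk'_surjective _) (center_solv _) f hf
    · obtain ⟨f, hf⟩ := hOM F n h4
      exact hc F _ _ n n (by omega) ρ hρ (QuotientGroup.mk' _)
        (QuotientGroup.mk'_surjective _) (center_solv _) f hf

end Pool.Agent.Work.MP_403fb3_h27
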