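import Pool.Agent.Work.MP_403fb3_h27.Interface

/-!
# Block BASE: base change to the algebraic closure
-/

namespace Pool.Agent.Work.MP_403fb3_h27

open Subgroup

theorem p_BASE : S_BASE := by
  intro M n h K V G _ _ _ _ _ _ hs ρ hn d hd g hg
  have h1 := h (AlgebraicClosure K) (TensorProduct K (AlgebraicClosure K) V) G hs
    ((Module.End.baseChangeHom K (AlgebraicClosure K) V : Module.End K V →*
      Module.End (AlgebraicClosure K) (TensorProduct K (AlgebraicClosure K) V)).comp ρ)
    (by rw [Module.finrank_baseChange, hn]) d hd g hg
  have hinj : Function.Injective (TensorProduct.mk K (AlgebraicClosure K) V 1) :=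
    Module.FaithfullyFlat.tensorProduct_mk_injective V
  refine LinearMap.ext fun v => hinj ?_
  have h2 := LinearMap.congr_fun h1 (TensorProduct.mk K (AlgebraicClosure K) V 1 v)
  exact h2

end Pool.Agent.Work.MP_403fb3_h27
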