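import Pool.Agent.Work.MP_403fb3_h27.Interface

namespace Pool.Agent.Work.MP_403fb3_h27

open Subgroup

theorem p_FIN (hTH : S_TH) (hFJ : S_FJ) (hUP : S_UP) (hLOW : S_LOW) (hZERO : S_ZERO) : S_FIN := by
  obtain ⟨h1, h2, h5⟩ := hTH
  obtain ⟨M, hM, hUP⟩ := hUP
  intro R
  obtain ⟨c, hc⟩ := pow_unbounded_of_one_lt (4 * M * R) h1
  refine ⟨c, ?_⟩
  intro K Γ G _ _ _ _ n m hnm ρ hρ π hπ hker f hf d ⟨S, hS1, hS2⟩ e hed
  rcases Nat.eq_zero_or_pos e with he | he
  · rw [he]; exact hZERO G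
  obtain ⟨e, rfl⟩ : ∃ e', e = e' + 1 := ⟨e - 1, by omega⟩
  have hSs : Group.IsSolvable S := (Group.isSolvable_def S).mpr ⟨d, hS1⟩
  have hne : derivedSeries S (d - 1) ≠ ⊥ := hS2 (d - 1) (by omega)
  have hup := hUP K Γ G n ρ hρ π hπ hker S hSs (d - 1) hne
  refine hLOW m e f hf ?_
  have ham := hFJ.2 e
  have hM0 : (0 : ℝ) < M := by linarith
  have hth0 : (0 : ℝ) < th := by linarith
  have h3 : th ^ (e + c) ≤ th ^ (d - 1) := pow_le_pow_right₀ h1.le (by omega)
  have h4 : (n : ℝ) ≤ R * m := by exact_mod_cast hnm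
  have h6 : th ^ (e + c) ≤ M * (R * m) := h3.trans (hup.trans (mul_le_mul_of_nonneg_left h4 hM0.le))
  rw [pow_add] at h6
  have hR : (0 : ℝ) < R := by
    rcases Nat.eq_zero_or_pos R with h | h
    · exfalso
      rw [h] at h6
      have h7 : 0 < th ^ e * th ^ c := by positivity
      simp at h6
      linarith
    · exact_mod_cast h
  have h8 : 4 * M * R * th ^ e ≤ M * R * m := by
    calc 4 * M * R * th ^ e ≤ th ^ c * th ^ e := by
          exact mul_le_mul_of_nonneg_right hc.le (by positivity)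
      _ = th ^ e * th ^ c := mul_comm _ _
      _ ≤ M * (R * m) := h6
      _ = M * R * m := by ring
  have hMR : 0 < M * R := mul_pos hM0 hR
  have h9 : 4 * th ^ e ≤ m := by
    have : (M * R) * (4 * th ^ e) ≤ (M * R) * m := by linarith
    exact le_of_mul_le_mul_left this hMR
  have h10 : (Pool.Agent.Work.MP_403fb3_al_helper9.am e : ℝ) ≤ m := ham.trans h9
  exact_mod_cast h10

end Pool.Agent.Work.MP_403fb3_h27
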