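import Pool.Agent.Work.MP_403fb3_h27.Interface

set_option autoImplicit false

/-! Block LOW (helper63) -/

namespace Pool.Agent.Work.MP_403fb3_h27

open Subgroup Pool.Agent.Work.MP_403fb3_al_helper9

theorem p_LOW : S_LOW := by
  intro G _ m e f hf he
  obtain ⟨a, b, h⟩ := alt_exists he
  exact variety_of_pair (f a) (f b) (GG.closure (GG.map h f hf))

end Pool.Agent.Work.MP_403fb3_h27
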