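import Pool.Agent.Work.MP_403fb3_h27.Interface

/-!
# Block SELF: a normal subgroup, abelian modulo the scalars, which contains its centraliser
-/

namespace Pool.Agent.Work.MP_403fb3_h27

open Subgroup
open scoped commutatorElement

namespace BSELF

variable {K V G : Type} [Field K] [AddCommGroup V] [Module K V] [Group G]

lemma normal (ρ : G →* Module.End K V) : (Zs ρ).Normal := by
  refine ⟨fun g hg n => ?_⟩
  obtain ⟨z, hz, h⟩ := hg
  refine ⟨z, hz, ?_⟩
  rw [map_mul, map_mul, h, mul_smul_comm, mul_one, smul_mul_assoc, ← map_mul, mul_inv_cancel,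
    map_one]

/-- the centraliser -/
def cen (ρ : G →* Module.End K V) (B : Subgroup G) : Subgroup G where
  carrier := {g | ∀ b ∈ B, ρ g * ρ b = ρ b * ρ g}
  mul_mem' := by
    intro a b ha hb x hx
    rw [map_mul, mul_assoc, hb x hx, ← mul_assoc, ha x hx, mul_assoc]
  one_mem' := by
    intro x _
    rw [map_one, one_mul, mul_one]
  inv_mem' := by
    intro a ha x hx
    have h := ha x hx
    have h1 : ρ a⁻¹ * ρ a = 1 := by rw [← map_mul, inv_mul_cancel, map_one]
    have h2 : ρ a * ρ a⁻¹ = 1 := by rw [← map_mul, mul_inv_cancel, map_one]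
    calc ρ a⁻¹ * ρ x = ρ a⁻¹ * ρ x * (ρ a * ρ a⁻¹) := by rw [h2, mul_one]
      _ = ρ a⁻¹ * (ρ x * ρ a) * ρ a⁻¹ := by simp only [mul_assoc]
      _ = ρ a⁻¹ * (ρ a * ρ x) * ρ a⁻¹ := by rw [h]
      _ = ρ a⁻¹ * ρ a * ρ x * ρ a⁻¹ := by simp only [mul_assoc]
      _ = ρ x * ρ a⁻¹ := by rw [h1, one_mul]

lemma cen_normal (ρ : G →* Module.End K V) (B : Subgroup G) (hB : B.Normal) :
    (cen ρ B).Normal := by
  refine ⟨fun g hg n b hb => ?_⟩
  have h := hg (n⁻¹ * b * n) (by simpa using hB.conj_mem b hb n⁻¹)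
  have h2 : ρ n * ρ n⁻¹ = 1 := by rw [← map_mul, mul_inv_cancel, map_one]
  rw [map_mul, map_mul] at h
  rw [map_mul, map_mul]
  calc ρ n * ρ g * ρ n⁻¹ * ρ b = ρ n * ρ g * ρ n⁻¹ * ρ b * (ρ n * ρ n⁻¹) := by rw [h2, mul_one]
    _ = ρ n * (ρ g * (ρ n⁻¹ * ρ b * ρ n)) * ρ n⁻¹ := by simp only [mul_assoc]
    _ = ρ n * (ρ n⁻¹ * ρ b * ρ n * ρ g) * ρ n⁻¹ := by rw [h]
    _ = ρ n * ρ n⁻¹ * ρ b * ρ n * ρ g * ρ n⁻¹ := by simp only [mul_assoc]
    _ = ρ b * (ρ n * ρ g * ρ n⁻¹) := by rw [h2, one_mul]; simp only [mul_assoc]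

/-- the derived series of a subgroup -/
def der (C : Subgroup G) : ℕ → Subgroup G
  | 0 => C
  | i + 1 => ⁅der C i, der C i⁆

lemma der_normal (C : Subgroup G) (hC : C.Normal) (i : ℕ) : (der C i).Normal := by
  induction i with
  | zero => exact hC
  | succ i ih =>
    have := ih
    exact Subgroup.commutator_normal _ _

lemma der_le (C : Subgroup G) (i : ℕ) : der C i ≤ derivedSeries G i := by
  induction i with
  | zero => exact le_top
  | succ i ih => exact Subgroup.commutator_mono ih ih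

lemma der_le_self (C : Subgroup G) (hC : C.Normal) (i : ℕ) : der C i ≤ C := by
  induction i with
  | zero => exact le_rfl
  | succ i ih =>
    have := der_normal C hC i
    exact (Subgroup.commutator_le_left _ _).trans ih

lemma comm_iff (Z : Subgroup G) (hZ : Z.Normal) (a b : G) :
    ⁅a, b⁆ ∈ Z ↔ Commute (QuotientGroup.mk' Z a) (QuotientGroup.mk' Z b) := by
  rw [← commutatorElement_eq_one_iff_commute, ← map_commutatorElement]
  exact (QuotientGroup.eq_one_iff _).symm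

end BSELF

theorem p_SELF : S_SELF := by
  intro K V G _ _ _ _ _ hs ρ hp
  have hZ : (Zs ρ).Normal := BSELF.normal ρ
  refine ⟨hZ, ?_⟩
  set F : Set (Subgroup G) := {B | B.Normal ∧ Zs ρ ≤ B ∧ ⁅B, B⁆ ≤ Zs ρ} with hF
  have hne : F.Nonempty := ⟨Zs ρ, hZ, le_rfl, Subgroup.commutator_le_left _ _⟩
  obtain ⟨B, hBm⟩ := (Set.toFinite F).exists_maximal hne
  obtain ⟨hBn, hZB, hBB⟩ := hBm.prop
  refine ⟨B, hBn, hZB, hBB, ?_⟩
  have hCn := BSELF.cen_normal ρ B hBn
  -- the intersection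
  have hCB : BSELF.cen ρ B ⊓ B ≤ Zs ρ := by
    refine hp _ (Subgroup.normal_inf_normal _ _) ?_
    intro a ha b hb
    rw [map_mul, map_mul]
    exact ha.1 b hb.2
  have hCZ : BSELF.cen ρ B ≤ Zs ρ := by
    by_contra hcon
    have hex : ∃ i, BSELF.der (BSELF.cen ρ B) i ≤ Zs ρ := by
      obtain ⟨n, hn⟩ := hs.solvable
      refine ⟨n, (BSELF.der_le _ n).trans ?_⟩
      rw [hn]
      exact bot_le
    classical
    obtain ⟨j, hj⟩ : ∃ j, Nat.find hex = j + 1 := by
      refine Nat.exists_eq_succ_of_ne_zero fun h0 => ?_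
      have := Nat.find_spec hex
      rw [h0] at this
      exact hcon this
    have hD1 : ¬ BSELF.der (BSELF.cen ρ B) j ≤ Zs ρ := Nat.find_min hex (by omega)
    have hD2 : ⁅BSELF.der (BSELF.cen ρ B) j, BSELF.der (BSELF.cen ρ B) j⁆ ≤ Zs ρ := by
      have := Nat.find_spec hex
      rw [hj] at this
      exact this
    set D : Subgroup G := BSELF.der (BSELF.cen ρ B) j with hD
    have hDn : D.Normal := BSELF.der_normal _ hCn j
    have hDC : D ≤ BSELF.cen ρ B := BSELF.der_le_self _ hCn j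
    have hBD : ∀ b ∈ B, ∀ d ∈ D, ⁅b, d⁆ ∈ Zs ρ := by
      intro b hb d hd
      have h1 : ρ d * ρ b = ρ b * ρ d := hDC hd b hb
      refine ⟨1, one_ne_zero, ?_⟩
      rw [one_smul, commutatorElement_def, map_mul, map_mul, map_mul, ← h1, mul_assoc (ρ d),
        ← map_mul, mul_inv_cancel, map_one, mul_one, ← map_mul, mul_inv_cancel, map_one]
    have hsup : B ⊔ D ∈ F := by
      refine ⟨Subgroup.sup_normal B D, hZB.trans le_sup_left, ?_⟩
      rw [Subgroup.commutator_le]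
      have key : ∀ x ∈ B ⊔ D, ∃ b ∈ B, ∃ d ∈ D, x = b * d := by
        intro x hx
        have h2 : x ∈ ((B ⊔ D : Subgroup G) : Set G) := hx
        rw [Subgroup.mul_normal B D] at h2
        obtain ⟨b, hb, d, hd, h3⟩ := h2
        exact ⟨b, hb, d, hd, h3.symm⟩
      intro x hx y hy
      obtain ⟨b, hb, d, hd, rfl⟩ := key x hx
      obtain ⟨b', hb', d', hd', rfl⟩ := key y hy
      rw [BSELF.comm_iff _ hZ, map_mul, map_mul]
      have c1 := (BSELF.comm_iff _ hZ b b').1 (hBB (Subgroup.commutator_mem_commutator hb hb'))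
      have c2 := (BSELF.comm_iff _ hZ b d').1 (hBD b hb d' hd')
      have c3 := (BSELF.comm_iff _ hZ b' d).1 (hBD b' hb' d hd)
      have c4 := (BSELF.comm_iff _ hZ d d').1 (hD2 (Subgroup.commutator_mem_commutator hd hd'))
      exact (c1.mul_right c2).mul_left (c3.symm.mul_right c4)
    have hle : B ⊔ D ≤ B := hBm.le_of_ge hsup le_sup_left
    have hDB : D ≤ B := le_sup_right.trans hle
    exact hD1 (fun d hd => hCB ⟨hDC hd, hDB hd⟩)
  intro g hg
  refine hCZ fun b hb => ?_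
  have := hg b hb
  rwa [map_mul, map_mul] at this

end Pool.Agent.Work.MP_403fb3_h27
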