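import Pool.Agent.Work.MP_403fb3_h27.Interface

namespace Pool.Agent.Work.MP_403fb3_h27

open Subgroup

theorem p_ZERO : S_ZERO := by
  intro G _
  refine ⟨PUnit, inferInstance, ?_, ⟨1, 1, ?_⟩, ?_, ?_⟩
  · intro k w _ f
    exact Subsingleton.elim _ _
  · exact Subsingleton.elim _ _
  · exact Subsingleton.elim _ _
  · intro m hm
    exact absurd hm (Nat.not_lt_zero m)

end Pool.Agent.Work.MP_403fb3_h27
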