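import Mathlib

/-!
# Derived length of soluble linear groups: definitions

`th = 9^(1/5)` is the growth rate. `LinBF M n` says: a finite soluble group acting linearly on an
`n`-dimensional space acts trivially from the `d`-th derived subgroup on as soon as
`M * n < th ^ d`.
-/

namespace Pool.Agent.Work.MP_403fb3_h27

open Subgroup

/-- the growth rate `9^(1/5)` -/
noncomputable def th : ℝ := (9 : ℝ) ^ ((1 : ℝ) / 5)

section sections

variable {G E : Type} [Group G] [AddCommGroup E]

/-- `D` acts trivially on the section `B / A`. -/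
def TrivOn (φ : G →* AddMonoid.End E) (D : Subgroup G) (A B : AddSubgroup E) : Prop :=
  ∀ g ∈ D, ∀ x ∈ B, φ g x - x ∈ A

/-- `A` is invariant. -/
def Inv (φ : G →* AddMonoid.End E) (A : AddSubgroup E) : Prop := ∀ g : G, ∀ x ∈ A, φ g x ∈ A

/-- A chain of invariant subgroups from `A` to `B`; the derived subgroup with number `a` acts
trivially on the factor with label `a`. -/
def Chain (φ : G →* AddMonoid.End E) : List ℕ → AddSubgroup E → AddSubgroup E → Prop
  | [], A, B => A = B
  | (a :: L), A, B => ∃ C : AddSubgroup E, A ≤ C ∧ Inv φ C ∧ TrivOn φ (derivedSeries G a) A C ∧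
      Chain φ L C B

end sections

/-- `Mer L t`: consecutive pieces with labels `L` can be merged two by two into one piece with
label `t` (every merging costs one). -/
inductive Mer : List ℕ → ℕ → Prop
  | nil (t : ℕ) : Mer [] t
  | single (a t : ℕ) (h : a ≤ t) : Mer [a] t
  | app (L₁ L₂ : List ℕ) (t : ℕ) (h₁ : Mer L₁ t) (h₂ : Mer L₂ t) : Mer (L₁ ++ L₂) (t + 1)

section linear

variable {K V G : Type} [Field K] [AddCommGroup V] [Module K V] [Group G]

/-- the additive action of a linear action -/
def lin (ρ : G →* Module.End K V) : G →* AddMonoid.End V where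
  toFun g := (ρ g).toAddMonoidHom
  map_one' := by ext x; rw [map_one]; rfl
  map_mul' g h := by ext x; rw [map_mul]; rfl

/-- no invariant subspaces besides `0` and the whole space -/
def Irr (ρ : G →* Module.End K V) : Prop :=
  ∀ W : Submodule K V, (∀ g : G, ∀ w ∈ W, ρ g w ∈ W) → W = ⊥ ∨ W = ⊤

/-- the elements acting as (nonzero) scalars -/
def Zs (ρ : G →* Module.End K V) : Subgroup G where
  carrier := {g | ∃ z : K, z ≠ 0 ∧ ρ g = z • (1 : Module.End K V)}
  mul_mem' := by
    rintro a b ⟨z, hz, ha⟩ ⟨w, hw, hb⟩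
    refine ⟨z * w, mul_ne_zero hz hw, ?_⟩
    rw [map_mul, ha, hb, smul_mul_smul_comm, one_mul]
  one_mem' := ⟨1, one_ne_zero, by simp⟩
  inv_mem' := by
    rintro a ⟨z, hz, ha⟩
    refine ⟨z⁻¹, inv_ne_zero hz, ?_⟩
    have h1 : ρ a * ρ a⁻¹ = 1 := by rw [← map_mul, mul_inv_cancel, map_one]
    rw [ha, smul_mul_assoc, one_mul] at h1
    rw [← h1, smul_smul, inv_mul_cancel₀ hz, one_smul]

/-- every normal subgroup with abelian image consists of scalars -/
def Prm (ρ : G →* Module.End K V) : Prop :=
  ∀ A : Subgroup G, A.Normal → (∀ a ∈ A, ∀ b ∈ A, ρ (a * b) = ρ (b * a)) → A ≤ Zs ρ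

end linear

/-- the bound for all fields, dimension `n`, constant `M` -/
def LinBF (M : ℝ) (n : ℕ) : Prop :=
  ∀ (K V G : Type) [Field K] [AddCommGroup V] [Module K V] [FiniteDimensional K V]
    [Group G] [Finite G], Group.IsSolvable G → ∀ ρ : G →* Module.End K V,
    Module.finrank K V = n → ∀ d : ℕ, M * n < th ^ d → ∀ g ∈ derivedSeries G d, ρ g = 1

/-- the bound for algebraically closed fields -/
def LinB (M : ℝ) (n : ℕ) : Prop :=
  ∀ (K V G : Type) [Field K] [IsAlgClosed K] [AddCommGroup V] [Module K V]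
    [FiniteDimensional K V] [Group G] [Finite G], Group.IsSolvable G →
    ∀ ρ : G →* Module.End K V,
    Module.finrank K V = n → ∀ d : ℕ, M * n < th ^ d → ∀ g ∈ derivedSeries G d, ρ g = 1

/-- the bound for irreducible groups over algebraically closed fields -/
def IrrB (M : ℝ) (n : ℕ) : Prop :=
  ∀ (K V G : Type) [Field K] [IsAlgClosed K] [AddCommGroup V] [Module K V]
    [FiniteDimensional K V] [Group G] [Finite G], Group.IsSolvable G →
    ∀ ρ : G →* Module.End K V, Irr ρ →
    Module.finrank K V = n → ∀ d : ℕ, M * n < th ^ d → ∀ g ∈ derivedSeries G d, ρ g = 1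

/-- the bound for groups in which abelian normal subgroups are scalar -/
def PrimB (M : ℝ) (n : ℕ) : Prop :=
  ∀ (K V G : Type) [Field K] [IsAlgClosed K] [AddCommGroup V] [Module K V]
    [FiniteDimensional K V] [Group G] [Finite G], Group.IsSolvable G →
    ∀ ρ : G →* Module.End K V, Prm ρ →
    Module.finrank K V = n → ∀ d : ℕ, M * n < th ^ d → ∀ g ∈ derivedSeries G d, ρ g = 1

/-- `var(G)` contains a 2-generator group of derived length exactly `d` (the wording of the
frozen statement). -/
def Var2 (G : Type) [Group G] (d : ℕ) : Prop :=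
  ∃ (H : Type) (_ : Group H),
    (∀ (k : ℕ) (w : FreeGroup (Fin k)),
        (∀ f : Fin k → G, FreeGroup.lift f w = 1) →
          ∀ f : Fin k → H, FreeGroup.lift f w = 1) ∧
    (∃ a b : H, Subgroup.closure ({a, b} : Set H) = ⊤) ∧
    derivedSeries H d = ⊥ ∧ ∀ m < d, derivedSeries H m ≠ ⊥

/-- `K` is soluble of derived length exactly `d`. -/
def HasLength {G : Type} [Group G] (K : Subgroup G) (d : ℕ) : Prop :=
  derivedSeries K d = ⊥ ∧ ∀ m < d, derivedSeries K m ≠ ⊥

end Pool.Agent.Work.MP_403fb3_h27
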