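import Pool.Agent.Work.MP_403fb3_h27.Defs
import Pool.Agent.Work.MP_403fb3_al_helper9.Final
import Pool.Agent.Work.MP_403fb3_al.TwoGen

/-!
# THEOREM DL: interface (statements of the blocks)

THEOREM. For every `R` there is `c` such that: `K` a field, `Γ` a finite group with a faithful
representation of degree `n` over `K`, `G` a quotient of `Γ` by a soluble normal subgroup,
`Alt(m)` embeds in `G`, `n ≤ R m`. If `G` has a soluble subgroup of derived length `d` then `var(G)`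
contains for every `e ≤ d - c` a 2-generator group of derived length exactly `e`.
-/

namespace Pool.Agent.Work.MP_403fb3_h27

open Subgroup

/-- TH (15 lines): `th = 9^(1/5)`, numerics. -/
def S_TH : Prop :=
    1 < th ∧ th < 2 ∧ th ^ 5 = 9

/-- FJ (50 lines). `fj` has growth rate exactly `th`: `th^d ≤ fj d`
(values 1 2 3 4 8 9 16 27 36 64, then `fj (d+10) = 9 fj (d+5)`, `th^5 = 9`; use `th < 1.552`,
`th^2 < 2.41`, `th^3 < 3.74`, `th^4 < 5.8`), and `am d ≤ 4 th^d`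
(`am` of helper9, Tops/AltLow; see Results Alternating `altDeg_eq`, `symDeg_eq`). -/
def S_FJ : Prop :=
    (∀ d : ℕ, th ^ d ≤ (Pool.Agent.Work.MP_403fb3_al_helper9.fj d : ℝ)) ∧
    ∀ d : ℕ, (Pool.Agent.Work.MP_403fb3_al_helper9.am d : ℝ) ≤ 4 * th ^ d

/-- PERM (15 lines): from helper9's `degree_bound` and FJ. -/
def S_PERM : Prop :=
  ∀ (G Y : Type) [Group G] [MulAction G Y] [Finite Y]
    (hs : Group.IsSolvable G) (d : ℕ) (h : (Nat.card Y : ℝ) < th ^ d),
    ∀ g ∈ derivedSeries G d, ∀ y : Y, g • y = y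

/-- COMM (30 lines). -/
def S_COMM : Prop :=
  ∀ {G E : Type} [Group G] [AddCommGroup E] (φ : G →* AddMonoid.End E)
    (D : Subgroup G) (A B C : AddSubgroup E) (hAB : A ≤ B) (hBC : B ≤ C) (hA : Inv φ A)
    (hB : Inv φ B) (hC : Inv φ C) (h1 : TrivOn φ D A B) (h2 : TrivOn φ D B C),
    TrivOn φ ⁅D, D⁆ A C

/-- CHAIN (50 lines), from COMM, induction on `Mer`. -/
def S_CHAIN : Prop :=
  ∀ {G E : Type} [Group G] [AddCommGroup E] (φ : G →* AddMonoid.End E)
    (L : List ℕ) (t : ℕ) (hm : Mer L t) (A B : AddSubgroup E) (hA : Inv φ A) (hB : Inv φ B)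
    (hc : Chain φ L A B),
    TrivOn φ (derivedSeries G t) A B

/-- KRAFT (100 lines), the alphabetic Kraft inequality. Proof: put the pieces one after the other
on the line as intervals `[y, y + 2^(a+1))` inside `[0, 2^t)`; each contains an aligned dyadic
interval `[p 2^a, (p+1) 2^a)`, `p = ⌈y/2^a⌉`. Then, by induction on `t`: a list of pairs `(p, a)`
with aligned intervals disjoint, in order, inside `[q 2^t, (q+1) 2^t)` is `Mer`: either one piece
with `a = t`, or all `a < t` and the list splits at the midpoint. -/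
def S_KRAFT : Prop :=
  ∀ (L : List ℕ) (t : ℕ) (h : (L.map (fun a => 2 ^ (a + 1))).sum ≤ 2 ^ t),
    Mer L t

/-- UNIF (20 lines): at most `2^s` pieces with labels `≤ a`. -/
def S_UNIF : Prop :=
  ∀ (L : List ℕ) (a s : ℕ) (h1 : ∀ x ∈ L, x ≤ a) (h2 : L.length ≤ 2 ^ s),
    Mer L (a + s)

/-- EIG (40 lines): simultaneous eigenvectors with distinct characters are independent. -/
def S_EIG : Prop :=
  ∀ {K M ι S : Type} [Field K] [AddCommGroup M] [Module K M] (v : ι → M)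
    (hv : ∀ i, v i ≠ 0) (T : S → M →ₗ[K] M) (μ : ι → S → K)
    (h : ∀ i s, T s (v i) = μ i s • v i) (hinj : Function.Injective μ),
    LinearIndependent K v

/-- CARD (70 lines), from EIG: operators of representatives of the cosets of `Zs ρ` in `B` are
simultaneous eigenvectors of the conjugations by `B` in `End V`, with distinct characters. -/
def S_CARD : Prop :=
  ∀ {K V G : Type} [Field K] [AddCommGroup V] [Module K V]
    [FiniteDimensional K V] [Nontrivial V] [Group G] [Finite G] (ρ : G →* Module.End K V)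
    (B : Subgroup G) (hZB : Zs ρ ≤ B) (hcomm : ⁅B, B⁆ ≤ Zs ρ)
    (hself : ∀ g : G, (∀ b ∈ B, ρ (g * b) = ρ (b * g)) → g ∈ Zs ρ),
    (Zs ρ).relIndex B ≤ Module.finrank K V ^ 2

/-- SELF (80 lines). `B / Z` maximal among the abelian normal subgroups of `G / Z`, `Z = Zs ρ`
(normal). `C = {g | ρ(gb) = ρ(bg) for all b in B}` is a normal subgroup, `C ∩ B ≤ Z` by `Prm`. If
`C` is not inside `Z`, the last derived subgroup of `C` not contained in `Z`, call it `D` (so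
`⁅D, D⁆ ≤ Z`, `D` normal), has `B ⊔ D` abelian modulo `Z`, so `D ≤ B`, `D ≤ B ∩ C ≤ Z`. -/
def S_SELF : Prop :=
  ∀ {K V G : Type} [Field K] [AddCommGroup V] [Module K V]
    [Group G] [Finite G] (hs : Group.IsSolvable G) (ρ : G →* Module.End K V) (hp : Prm ρ),
    (Zs ρ).Normal ∧ ∃ B : Subgroup G, B.Normal ∧ Zs ρ ≤ B ∧ ⁅B, B⁆ ≤ Zs ρ ∧
      ∀ g : G, (∀ b ∈ B, ρ (g * b) = ρ (b * g)) → g ∈ Zs ρ

/-- TWO (50 lines). `g` in `R` multiplies `ρ b` by a scalar under conjugation, so `⁅R, R⁆`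
centralises `ρ B`, hence `⁅R, R⁆ ≤ Zs ρ`, and scalars commute. -/
def S_TWO : Prop :=
  ∀ {K V G : Type} [Field K] [AddCommGroup V] [Module K V]
    [Group G] (ρ : G →* Module.End K V) (B R : Subgroup G)
    (hself : ∀ g : G, (∀ b ∈ B, ρ (g * b) = ρ (b * g)) → g ∈ Zs ρ)
    (hR : ∀ g ∈ R, ∀ b ∈ B, g * b * g⁻¹ * b⁻¹ ∈ Zs ρ),
    ∀ g ∈ ⁅⁅R, R⁆, ⁅R, R⁆⁆, ρ g = 1

/-- AB (100 lines), from CHAIN, UNIF. `|E| = p_1 ⋯ p_k` (primes with multiplicity, `k ≤ ℓ`),
`E ≥ p_1 E ≥ p_1 p_2 E ≥ ⋯ ≥ 0`; every factor is a vector space over `ZMod p_i` of dimension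
`≤ ℓ`, on which `LinBF` applies. -/
def S_AB : Prop :=
  ∀ (M : ℝ) (hM : 0 < M) (ℓ : ℕ) (hlin : ∀ r ≤ ℓ, LinBF M r) (G E : Type) [Group G]
    [Finite G] (hs : Group.IsSolvable G) [AddCommGroup E] [Finite E] (φ : G →* AddMonoid.End E)
    (hE : Nat.card E ≤ 2 ^ ℓ) (a s : ℕ) (ha : M * ℓ < th ^ a) (hl : ℓ ≤ 2 ^ s),
    TrivOn φ (derivedSeries G (a + s)) ⊥ ⊤

/-- CONJ (70 lines): AB and PERM for the conjugation action of `G` on `B / Z`. -/
def S_CONJ : Prop :=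
  ∀ (G : Type) [Group G] [Finite G] (hs : Group.IsSolvable G) (Z B : Subgroup G)
    (hZ : Z.Normal) (hB : B.Normal) (hZB : Z ≤ B) (hcomm : ⁅B, B⁆ ≤ Z),
    (∀ (M : ℝ), 0 < M → ∀ ℓ : ℕ, (∀ r ≤ ℓ, LinBF M r) → Z.relIndex B ≤ 2 ^ ℓ → ∀ a s : ℕ,
      M * ℓ < th ^ a → ℓ ≤ 2 ^ s → ∀ g ∈ derivedSeries G (a + s), ∀ b ∈ B, g * b * g⁻¹ * b⁻¹ ∈ Z) ∧
    (∀ d : ℕ, ((Z.relIndex B : ℕ) : ℝ) < th ^ d →
      ∀ g ∈ derivedSeries G d, ∀ b ∈ B, g * b * g⁻¹ * b⁻¹ ∈ Z)

/-- PRIM (90 lines), from TH, CARD, SELF, TWO, CONJ. Take `b0` with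
`8 th^3 C (log2 b + 1)^2 ≤ b` for `b ≥ b0`, `P0` with `b0^2 < th^P0`, `M1 = th^(P0+2)`. For `b < b0`
the second half of CONJ with `d = P0`, then TWO. For `b ≥ b0`: `ℓ = 2 (Nat.log 2 b + 1)`, `a`
minimal with `C M ℓ < th^a`, `s` minimal with `ℓ ≤ 2^s`; `th^(a+s+2) ≤ 2 th^3 C M ℓ^2 ≤ M b < th^d`,
so `a + s + 2 ≤ d`. -/
def S_PRIM : Prop :=
  ∀ (C : ℝ) (hC : 1 ≤ C),
    ∃ M1 : ℝ, 1 ≤ M1 ∧ ∀ M : ℝ, M1 ≤ M → ∀ b : ℕ, 1 ≤ b →
    (∀ r < b, LinBF (C * M) r) → PrimB M b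

/-- EIGV (40 lines): commuting operators on a nonzero space over an algebraically closed field
have a common eigenvector (minimal invariant subspace). -/
def S_EIGV : Prop :=
  ∀ {K V S : Type} [Field K] [IsAlgClosed K] [AddCommGroup V] [Module K V]
    [FiniteDimensional K V] (T : S → Module.End K V) (hT : ∀ s s', T s * T s' = T s' * T s)
    (W : Submodule K V) (hW : W ≠ ⊥) (hinv : ∀ s, ∀ w ∈ W, T s w ∈ W),
    ∃ w ∈ W, w ≠ 0 ∧ ∀ s, ∃ z : K, T s w = z • w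

/-- IND (150 lines), from EIGV (apply it to the restrictions) and EIG. Among the pairs `(N, W)`,
`W ≠ 0` invariant under `N`, `[G : N] dim W = dim V`, the translates of `W` span `V` (for example
`(⊤, ⊤)`), take one with `dim W` minimal. If a normal subgroup `A` of `N` acts on `W` by commuting
maps, not all scalar, take a common eigenvector, its weight `χ`, `W1` = weight space of `χ` in `W`,
`N1` = stabiliser of `W1` in `N`: the translates of `W1` by `N / N1` are weight spaces for distinct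
weights, so `[N : N1] dim W1 ≤ dim W`, and the translates by `G` span `V` (irreducibility), so
`[G : N1] dim W1 ≥ dim V`; `(N1, W1)` is again such a pair, with `dim W1 < dim W`. -/
def S_IND : Prop :=
  ∀ {K V G : Type} [Field K] [IsAlgClosed K] [AddCommGroup V] [Module K V]
    [FiniteDimensional K V] [Nontrivial V] [Group G] [Finite G] (ρ : G →* Module.End K V)
    (hirr : Irr ρ),
    ∃ (N : Subgroup G) (W : Submodule K V), W ≠ ⊥ ∧
      (∀ g ∈ N, ∀ w ∈ W, ρ g w ∈ W) ∧ N.index * Module.finrank K W = Module.finrank K V ∧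
      (∀ X : Submodule K V, (∀ g : G, ∀ w ∈ W, ρ g w ∈ X) → X = ⊤) ∧
      ∀ A : Subgroup G, A ≤ N → (∀ h ∈ N, ∀ a ∈ A, h * a * h⁻¹ ∈ A) →
        (∀ a ∈ A, ∀ b ∈ A, ∀ w ∈ W, ρ (a * b) w = ρ (b * a) w) →
        ∀ a ∈ A, ∃ z : K, ∀ w ∈ W, ρ a w = z • w

/-- IRR (80 lines), from PERM, IND. `c = N.index < th^P`, `P` minimal, so `th^P ≤ th c`:
`G^(P)` fixes all cosets of `N`, so lies in `N`; `e = d - P`: `M b < th^e`, so `N^(e)` acts
trivially on `W`, and `G^(d) = (G^(P))^(e)` is normal and acts trivially on `W`, so on all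
translates. -/
def S_IRR : Prop :=
  ∀ (M : ℝ) (hM : 1 ≤ M) (n : ℕ) (hn : 1 ≤ n)
    (hp : ∀ b, 1 ≤ b → b ≤ n → PrimB M b),
    IrrB (th * M) n

/-- JH (80 lines): a composition series as a `Chain`. -/
def S_JH : Prop :=
  ∀ {K V G : Type} [Field K] [AddCommGroup V] [Module K V]
    [FiniteDimensional K V] [Group G] (ρ : G →* Module.End K V) (f : ℕ → ℕ)
    (hf : ∀ (U : Type) [AddCommGroup U] [Module K U] [FiniteDimensional K U]
      (σ : G →* Module.End K U), Irr σ → 1 ≤ Module.finrank K U →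
      Module.finrank K U ≤ Module.finrank K V →
      ∀ g ∈ derivedSeries G (f (Module.finrank K U)), σ g = 1),
    ∃ ms : List ℕ, (∀ m ∈ ms, 1 ≤ m) ∧ ms.sum = Module.finrank K V ∧
      Chain (lin ρ) (ms.map f) ⊥ ⊤

/-- WT (60 lines): with `f m` the least `a` with `M m < th^a`, a list of positive integers with
sum `n` and `th^2 M n < th^d` satisfies Kraft's inequality for `d`. `κ = log 2 / log th ≥ 1`:
`2 = th^κ`, `2^(f m) ≤ (th M m)^κ = 2 (M m)^κ`, `x^κ` is superadditive, `4 (M n)^κ < th^(κ d) = 2^d`. -/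
def S_WT : Prop :=
  ∀ (M : ℝ) (hM : 1 ≤ M) (f : ℕ → ℕ) (hf1 : ∀ m : ℕ, M * m < th ^ f m)
    (hf2 : ∀ m a : ℕ, M * m < th ^ a → f m ≤ a) (ms : List ℕ) (hms : ∀ m ∈ ms, 1 ≤ m) (d : ℕ)
    (hd : th ^ 2 * M * (ms.sum : ℕ) < th ^ d),
    ((ms.map f).map (fun a => 2 ^ (a + 1))).sum ≤ 2 ^ d

/-- GEN (40 lines), from JH, WT, KRAFT, CHAIN. -/
def S_GEN : Prop :=
  ∀ (M : ℝ) (hM : 1 ≤ M) (n : ℕ) (hi : ∀ m, 1 ≤ m → m ≤ n → IrrB M m),
    LinB (th ^ 2 * M) n

/-- BASE (40 lines): base change to the algebraic closure. -/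
def S_BASE : Prop :=
  ∀ (M : ℝ) (n : ℕ) (h : LinB M n),
    LinBF M n

/-- MAIN (20 lines): strong induction on `n`, from PRIM (with `C = th^3`), IRR, GEN, BASE. -/
def S_MAIN : Prop :=
    ∃ M : ℝ, 1 ≤ M ∧ ∀ n : ℕ, LinBF M n

/-- UP (50 lines), from MAIN: preimages of soluble subgroups under `π` are soluble. -/
def S_UP : Prop :=
    ∃ M : ℝ, 1 ≤ M ∧ ∀ (K Γ G : Type) [Field K] [Group Γ] [Finite Γ] [Group G] (n : ℕ)
    (ρ : Γ →* Matrix.GeneralLinearGroup (Fin n) K), Function.Injective ρ →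
    ∀ π : Γ →* G, Function.Surjective π → Group.IsSolvable π.ker →
    ∀ S : Subgroup G, Group.IsSolvable S → ∀ d : ℕ, derivedSeries S d ≠ ⊥ →
      th ^ d ≤ M * n

/-- LOW (40 lines), from helper9's `alt_exists`, `GG.comap`/`GG.closure`, `variety_of_pair`
(Final.lean): `Alt(m)` in `G` and `am e ≤ m` give `Var2 G (e + 1)`. -/
def S_LOW : Prop :=
  ∀ {G : Type} [Group G] (m e : ℕ) (f : alternatingGroup (Fin m) →* G)
    (hf : Function.Injective f) (he : Pool.Agent.Work.MP_403fb3_al_helper9.am e ≤ m),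
    Var2 G (e + 1)

/-- ZERO (5 lines) -/
def S_ZERO : Prop :=
  ∀ (G : Type) [Group G],
    Var2 G 0

/-- FIN (40 lines), from TH, FJ, UP, LOW, ZERO. -/
def S_FIN : Prop :=
  ∀ (R : ℕ),
    ∃ c : ℕ, ∀ (K Γ G : Type) [Field K] [Group Γ] [Finite Γ] [Group G]
    (n m : ℕ), n ≤ R * m → ∀ ρ : Γ →* Matrix.GeneralLinearGroup (Fin n) K, Function.Injective ρ →
    ∀ π : Γ →* G, Function.Surjective π → Group.IsSolvable π.ker →
    ∀ f : alternatingGroup (Fin m) →* G, Function.Injective f →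
    ∀ d : ℕ, (∃ S : Subgroup G, HasLength S d) → ∀ e : ℕ, e + c ≤ d → Var2 G e

/-- PSL (90 lines): `SL → PSL`, kernel = scalar matrices (`Matrix.SpecialLinearGroup.mem_center_iff`),
even permutation matrices. -/
def S_PSL : Prop :=
  ∀ (F : Type) [Field F] [Finite F] (n : ℕ),
    ∃ (ρ : Matrix.SpecialLinearGroup (Fin n) F →* Matrix.GeneralLinearGroup (Fin n) F)
      (π : Matrix.SpecialLinearGroup (Fin n) F →*
        Matrix.ProjectiveSpecialLinearGroup (Fin n) F)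
      (f : alternatingGroup (Fin n) →* Matrix.ProjectiveSpecialLinearGroup (Fin n) F),
      Function.Injective ρ ∧ Function.Surjective π ∧ Group.IsSolvable π.ker ∧
      Function.Injective f

end Pool.Agent.Work.MP_403fb3_h27
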